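import Pool.Agent.Helper99.PG.Defs
import Pool.Agent.Helper52.C2.Goals

/-!
PROJECT C2, target (a): goals of the parts II (trees) and III (responses). Complete proofs in
words are in the docstrings. Every goal is a `Prop`; goals that are used appear as hypotheses.
-/

namespace Pool.Agent.Helper99.PG

open Pool.Agent.Helper36.SC Pool.Agent.Helper37.Arb Pool.Agent.Helper52.C2
open scoped Classical

/-! ### II a. Planarity -/

/-- POT. With `α = underNext`, `β = overNext`, `N_α = {f | f ∘ α = f}`, `N_β`,
`N_γ = {g | g ∘ β = g ∘ α}` (submodules of `V → ℝ`):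
(1) `(D.Region → ℝ) ≃ N_α × N_β × N_γ` by `h ↦ (h (v, left), h (v, right), h (v, back))`: all
crossings are positive, so `SameSide` says `(v,left) ~ (αv,left)`, `(v,right) ~ (βv,right)`,
`(v,front) ~ (βv,back)`, `(v,front) ~ (αv,back)`; the inverse is `Quotient.lift` of
`left ↦ f v, right ↦ f' v, back ↦ g v, front ↦ g (α v)`. So the three dimensions add up to
`|V| + 2`.
(2) `Θ : N_γ → (V → ℝ)`, `g ↦ g ∘ α - g`, has the constants as its kernel (connectedness, as in
GoalConn), so its range has dimension `dim N_γ - 1`. The range is contained in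
`H = {i | ∑ f i = 0 for f in N_α and for f in N_β}`, which has dimension
`|V| - dim (N_α + N_β) = |V| - dim N_α - dim N_β + 1` (`N_α ⊓ N_β` = constants). So it is `H`. -/
def GoalPot : Prop := ∀ {V : Type} [Fintype V] [DecidableEq V] (D : AltDiagram V),
  (∀ v, D.pos v = true) → D.Connected → D.Planar → PotProp D.underNext D.overNext

/-- CONN. `S = {v | f v = f e'}` in `Connected`. -/
def GoalConn : Prop := ∀ {V : Type} (D : AltDiagram V), D.Connected →
  ConnProp D.underNext D.overNext

/-- HYP. `cut`: `g v = 1` if `region (v, back) = region (none, back)`, else `0`;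
`region (underNext v, back) = region (v, front) = region (overNext v, back)`. -/
def GoalHyp : Prop := GoalPot → GoalConn → ∀ {V : Type} [Fintype V] [DecidableEq V] (S : Skel V),
  ∃ H : Hyp V, H.α = S.D.underNext ∧ H.β = S.D.overNext

/-- CIRC. The graph of the circles exists: `C = Quotient (SameCycle.setoid α) ⊕
Quotient (SameCycle.setoid β)`. -/
def GoalCirc : Prop := ∀ {E : Type} [Fintype E] (α β : Equiv.Perm E), ∃ G : BG E, IsCirc α β G

/-! ### II b. The tree theorem -/

section trees

variable {V : Type} [Fintype V] [DecidableEq V] (G : BG (Option V)) (κ : Bool) (W : Finset V)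
  (A : V → Bool)

/-- the circle chosen by `A` at `v` -/
noncomputable def pick (v : V) : G.C := if A v then G.lf (some v) else G.rt (some v)

/-- number of choices in `U` -/
noncomputable def chosen (U : Finset G.C) : ℤ := ((W.filter fun v => pick G A v ∈ U).card : ℤ)

/-- number of crossings with both circles in `U` -/
noncomputable def inner (U : Finset G.C) : ℤ :=
  ((W.filter fun v => G.lf (some v) ∈ U ∧ G.rt (some v) ∈ U).card : ℤ)

/-- `1` if the exit circles lie in `U`: the left circle of `none` and, for `κ = true`, the right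
circle of `none` -/
noncomputable def exits (U : Finset G.C) : ℤ :=
  if G.lf none ∈ U ∧ (κ = true → G.rt none ∈ U) then 1 else 0

/-- the lattice point of a choice function -/
noncomputable def jof (c : G.C) : ℤ :=
  ∑ e with (G.lf e = c ∨ G.rt e = c), sz κ W e - 1 - chosen G W A {c} +
    (if κ = false ∧ G.lf none = c then 1 else 0)

end trees

/-- SLACK. `n(E(U)) - |U| - jof(U) = chosen U - inner U - exits U`. Sum the definition over `U`: an
edge `e` with `sz = 1` is counted `[lf e ∈ U] + [rt e ∈ U]` times (`lf e ≠ rt e` by colour), which is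
`[lf ∈ U or rt ∈ U] + [lf ∈ U and rt ∈ U]`; the edge `none` is present iff `κ = true`. In
particular (`U = univ`, `chosen = inner = |W|`) the total of `jof` is the one required in `J`. -/
def GoalSlack : Prop := ∀ {V : Type} [Fintype V] [DecidableEq V] (G : BG (Option V)) (κ : Bool)
  (W : Finset V) (A : V → Bool),
  (∀ U : Finset G.C, ∑ e with (G.lf e ∈ U ∨ G.rt e ∈ U), sz κ W e - U.card -
    ∑ c ∈ U, jof G κ W A c = chosen G W A U - inner G W U - exits G κ U) ∧
  (jof G κ W A ∈ G.J (sz κ W) ↔ ∀ U : Finset G.C, U.Nonempty → U ≠ Finset.univ →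
    inner G W U + exits G κ U ≤ chosen G W A U)

/-- DEG. The exponent: number of choices against `β`. `∑_(c left) (jof c + 1) - 1` is
`∑_e sz e - (number of left choices) + [κ = false] - 1` (every edge has exactly one left end), and
the number of left choices is `|W| - cnt`. -/
def GoalDeg : Prop := ∀ {V : Type} [Fintype V] [DecidableEq V] (G : BG (Option V)) (κ : Bool)
  (W : Finset V) (A : V → Bool), G.deg (jof G κ W A) = cnt W A

/-- TREEIN. By SLACK. `inner ≤ chosen` is clear. If `exits U = 1` and `chosen U = inner U` then every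
`v ∈ W` with exactly one circle in `U` chooses the other one. Let `U'` be the complement, not
empty. A port `(v, true)` lies on `lf v`, `(v, false)` on `rt v`. The successor of a port that lies
on a circle of `U'` lies on a circle of `U'` and exists (the exit ports lie on the exit circles;
for `κ = false` the step over `none` stays on its right circle). Every circle contains a port:
it is `lf e` or `rt e`, and if `e = none` replace it by `α none`, `β none`, which are not `none`.
Contradiction to `Reach` (induction over `Acc`). -/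
def GoalTreeIn : Prop := GoalSlack → ∀ {V : Type} [Fintype V] [DecidableEq V] (H : Hyp V)
  (G : BG (Option V)), IsCirc H.α H.β G → ∀ (κ : Bool) (W : Finset V),
  ∀ A ∈ H.trees κ W, jof G κ W A ∈ G.J (sz κ W)

/-- TREEINJ. Let `i e = [A v] - [A' v]` for `e = some v` (`[true] = 1`, `[false] = 0`) and
`i none = 0`. From `jof` equal: the number of choices is the same on every circle, so `i` has sum
zero against `f` with `f ∘ α = f` (such `f` is constant on the cycles, i.e. on the fibres of `lf`;
group the sum by circles: on a left circle the sum of `i` is the difference of the numbers of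
choices) and against `f ∘ β = f` (on a right circle it is minus the difference). `pot` gives `g`.
Put `g' (v, true) = g (some v)`, `g' (v, false) = g (α (some v))`. Along `suc A` the function `g'` is
nondecreasing: choice `true` at `v` means `i ≥ 0` and changes `g'` by `i` or `0`, choice `false`
means `i ≤ 0` and changes it by `-i` or `0` (`g (α (β⁻¹ v)) = g (β (β⁻¹ v)) = g v`; for `v ∉ W`
`i = 0`; the step over `none` for `κ = false`: `β⁻¹ v = none`, `dn v = β⁻¹ none`,
`g (α (β⁻¹ none)) = g none = g (α none) = g (β none) = g v` as `i none = 0`). At the last port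
the value is `g none` (`α v = none`: choice `true`, value after the step `g (α v) = g none`;
`β⁻¹ v = none`: `g v = g (β none) = g (α none) = g none`). So `g' ≤ g none`; along `suc A'` it is
nonincreasing, so `g' ≥ g none`. So `g` is constant, `i = 0`. -/
def GoalTreeInj : Prop := ∀ {V : Type} [Fintype V] [DecidableEq V] (H : Hyp V)
  (G : BG (Option V)), IsCirc H.α H.β G → ∀ (κ : Bool) (W : Finset V),
  ∀ A ∈ H.trees κ W, ∀ A' ∈ H.trees κ W, jof G κ W A = jof G κ W A' → A = A'

/-- HALL. `Finset.all_card_le_biUnion_card_iff_exists_injective` for the crossings in `W` and the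
slots `Σ C, Fin (c C)`: the neighbours of a set `s` of crossings are the slots on the circles `U`
touched by `s`, and `|s| ≤ inner U ≤ c (U)`. The injection is a bijection (`∑ c = |W|`). -/
def GoalHall : Prop := ∀ {V : Type} [Fintype V] [DecidableEq V] (G : BG (Option V))
  (W : Finset V) (c : G.C → ℕ), ∑ C, c C = W.card →
  (∀ U : Finset G.C, inner G W U ≤ ∑ C ∈ U, (c C : ℤ)) →
  ∃ A : V → Bool, (∀ v, v ∉ W → A v = true) ∧ ∀ C, chosen G W A {C} = c C

/-- CYCLE. If some port does not lead to the exit there is a cycle of the successor map. On the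
set `S` of the ports that are not accessible `suc` is a function `f : S → S`; take a periodic point
(`Function.periodicPts`, finite) and its orbit. -/
def GoalCycle : Prop := ∀ {V : Type} [Fintype V] [DecidableEq V] (up dn : V → Option V)
  (W : Finset V) (A : V → Bool), ¬ Reach up dn W A →
  ∃ Z : Finset (Port V), Z.Nonempty ∧ (∀ p ∈ Z, ∃ q ∈ Z, suc up dn W A p = some q) ∧
    (∀ q ∈ Z, ∃ p ∈ Z, suc up dn W A p = some q) ∧
    (∀ p ∈ Z, ∀ p' ∈ Z, suc up dn W A p = suc up dn W A p' → p = p') ∧
    ∀ f : Port V → ℝ, (∀ p ∈ Z, ∀ q, suc up dn W A p = some q → f q = f p) →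
      ∀ p ∈ Z, ∀ q ∈ Z, f p = f q

/-- The potential of a cycle: `Z` is a cycle of the successor map, `g` the potential: circle
values `g e + zp e` (left) and `g (α e) + zq e` (right). -/
structure CycPot {V : Type} [Fintype V] (H : Hyp V) (κ : Bool) (W : Finset V) (A : V → Bool)
    (Z : Finset (Port V)) (zp zq g : Option V → ℝ) : Prop where
  ne : Z.Nonempty
  next : ∀ p ∈ Z, ∃ q ∈ Z, suc H.up (H.dn κ) W A p = some q
  prev : ∀ q ∈ Z, ∃ p ∈ Z, suc H.up (H.dn κ) W A p = some q
  inj : ∀ p ∈ Z, ∀ p' ∈ Z, suc H.up (H.dn κ) W A p = suc H.up (H.dn κ) W A p' → p = p'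
  zp_some : ∀ v, zp (some v) = if (v, true) ∈ Z then 1 else 0
  zp_none : zp none = 0
  zp_α : zp (H.α none) = 0
  zq_some : ∀ v, zq (some v) = if (v, false) ∈ Z then 1 else 0
  zq_none : zq none = zq (H.β.symm none)
  zq_κ : κ = true → zq none = 0
  face : ∀ e, g (H.β e) = g (H.α e)
  hg : ∀ e, g (H.α e) - g e = zp e - zp (H.α e)
  hg' : ∀ e, g (H.α e) - g e = zq (H.β.symm e) - zq e
  zero : ∀ v, (v, true) ∈ Z → g (some v) = 0
  zero' : ∀ v, (v, false) ∈ Z → g (H.α (some v)) = 0

/-- CYCPOT. Define `zp`, `zq` by the formulas (`zq none = zq (β⁻¹ none)`; `β⁻¹ none ≠ none`). No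
port of `Z` is `(v, true)` with `some v = α none` (its predecessor would go along `α` to
`α none`), and for `κ = true` none is `(v, false)` with `some v = β⁻¹ none`. Conservation at
`v`: `zp v + zq v = zp (α v) + zq (β⁻¹ v)` (for `v ∈ W` both ports of `v` have the same successor, so
at most one of them is in `Z`; it goes to `(α v, true)` or to `(dn v, false)`; every element of `Z`
of this form has a predecessor in `Z` which is a port of `v`; for `v ∉ W` each port goes
straight), and `0 = 0` at `none`. So `i e = zp e - zp (α e) = zq (β⁻¹ e) - zq e` has sum zero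
against `f ∘ α = f` and `f ∘ β = f`; `pot` gives `g`. The function `g (v)` at `(v, true)`, `g (α v)` at
`(v, false)` is constant along `Z` (last part of CYCLE; four cases as in the header of the
project); subtract the constant from `g`. -/
def GoalCycPot : Prop := GoalCycle → ∀ {V : Type} [Fintype V] [DecidableEq V] (H : Hyp V)
  (κ : Bool) (W : Finset V) (A : V → Bool), ¬ Reach H.up (H.dn κ) W A →
  ∃ Z zp zq g, CycPot H κ W A Z zp zq g

/-- CASE1. `g none ≤ 0`. Left circle values `a e = g e + zp e` (`a ∘ α = a` by `hg`), right circle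
values `b e = g (α e) + zq e` (`b ∘ β = b` by `hg'`, `face`: `b (β e) - b e = g (α (β e)) - g (β e) +
zq (β e) - zq e = 0`); they define a function on circles (`IsCirc`; `SameCycle` and invariance).
`U` = circles with value `> 0`. It is not empty: a port of `Z` has circle value `1`. It does not
contain `lf none` (value `g none`), and for `κ = true` not `rt none` (value `g (α none) = g none`,
as `hg none` is `0`). Let `v ∈ W` with exactly one circle in `U`. If `a > 0 ≥ b` at `v`: if
`(v, true) ∉ Z` then `g v > 0`, `g (α v) ≤ 0`, so `zp (α v) = 1`, its predecessor in `Z` is a port of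
`v`, so it is `(v, false)`, so `zq v = 1`, `g (α v) = 0` and `b = 1`, contradiction; so
`(v, true) ∈ Z`, `g v = 0`; if `A v = false` then `(α v, true) ∉ Z` and `g (α v) = 1`,
contradiction to `b ≤ 0`; so `A v = true`, i.e. `v` chooses its circle in `U`. If `b > 0 ≥ a`: if
`(v, false) ∉ Z` then `g (α v) > 0`, `g v ≤ 0`, `hg` gives `zp v = 1`, `g v = 0`, `a = 1`,
contradiction; so `(v, false) ∈ Z`, `g (α v) = 0`; if `A v = true` then `(α v, true) ∈ Z`,
`zp v = 0` (else both ports in `Z`), so `g v = g (α v) - zp v + zp (α v) = 1 > 0`, contradiction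
to `a ≤ 0`. So all choices of crossings with a circle in `U` are in `U`; for the complement `U'`:
`chosen U' = inner U'`, and `exits U' = 1`. -/
def GoalCase1 : Prop := ∀ {V : Type} [Fintype V] [DecidableEq V] (H : Hyp V)
  (G : BG (Option V)), IsCirc H.α H.β G → ∀ (κ : Bool) (W : Finset V) (A : V → Bool)
  (Z : Finset (Port V)) (zp zq g : Option V → ℝ), CycPot H κ W A Z zp zq g → g none ≤ 0 →
  ∃ U : Finset G.C, U.Nonempty ∧ U ≠ Finset.univ ∧ chosen G W A U < inner G W U + exits G κ U

/-- CASE2. `g none > 0`. `g₁ e = 1` if `g e ≤ 0`, else `0`. `A' v = A v` unless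
`g₁ (α v) ≠ g₁ v`, then `A' v = !A v`. If `g₁ (α v) - g₁ v = 1`: `g (α v) ≤ 0 < g v`, so
`zp (α v) = 1`, `zp v = 0`; the predecessor of `(α v, true)` is `(v, false)`, so `v ∈ W` and
`A v = true`. If `g₁ (α v) - g₁ v = -1`: `zp v = 1`, `zp (α v) = 0`, so `v ∈ W`, `A v = false`.
`g₁ (α none) = g₁ none = 0` (`hg none`: `g (α none) = g none > 0`). `g₁` is not `0`: a port of `Z`. -/
def GoalCase2 : Prop := ∀ {V : Type} [Fintype V] [DecidableEq V] (H : Hyp V)
  (κ : Bool) (W : Finset V) (A : V → Bool) (Z : Finset (Port V)) (zp zq g : Option V → ℝ),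
  CycPot H κ W A Z zp zq g → 0 < g none → (∀ v, v ∉ W → A v = true) →
  ∃ (A' : V → Bool) (g₁ : Option V → ℝ), (∀ v, v ∉ W → A' v = true) ∧
    (∀ e, g₁ (H.β e) = g₁ (H.α e)) ∧ (∀ e, 0 ≤ g₁ e) ∧ (∃ e, 0 < g₁ e) ∧ g₁ none = 0 ∧
    g₁ (H.α none) = 0 ∧ ∀ v : V, ((if A v then 1 else 0) - (if A' v then 1 else 0) : ℝ) =
      g₁ (H.α (some v)) - g₁ (some v)

/-- SAMECOUNT. If two choice functions differ by a coboundary (as in CASE2) they have the same
numbers of choices: sum over a left circle `C` (`f e = [lf e = C]`, `f ∘ α = f`), over a right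
circle (`f ∘ β = f`, `g₁ ∘ α = g₁ ∘ β`; the number of choices of `C` is the number of `false`);
at `none` both sides are `0`. Conversely (POTDIFF) if two choice functions have the same numbers
then their difference is a coboundary with `g none = 0`, `g (α none) = 0`: `pot`. -/
def GoalSameCount : Prop := ∀ {V : Type} [Fintype V] [DecidableEq V] (H : Hyp V)
  (G : BG (Option V)), IsCirc H.α H.β G → ∀ (W : Finset V) (A A' : V → Bool),
  (∀ v, v ∉ W → A v = true) → (∀ v, v ∉ W → A' v = true) →
  ((∀ C, chosen G W A {C} = chosen G W A' {C}) ↔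
    ∃ g : Option V → ℝ, (∀ e, g (H.β e) = g (H.α e)) ∧ g none = 0 ∧ g (H.α none) = 0 ∧
      ∀ v : V, ((if A v then 1 else 0) - (if A' v then 1 else 0) : ℝ) =
        g (H.α (some v)) - g (some v))

/-- TREESURJ. From `j` put `c C = ∑_(e at C) sz e - 1 - j C + [κ = false, C = lf none]`; it is `≥ 0`
by the inequality of `J` for `{C}` (`{C} ≠ univ` since `lf none ≠ rt none`), the total is `|W|`, and
`inner U + exits U ≤ c(U)` for `U ≠ ∅, univ` (computation of SLACK). HALL gives a choice function
with these numbers. Among all choice functions `A` (`true` off `W`) with these numbers, take the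
potential `g_A` of `A₀ - A` by SAMECOUNT (unique: the difference `d` of two has `d ∘ α = d`,
`d ∘ β = d`, `d none = 0`: `conn`), and `A` with maximal `∑ e, g_A e`. If `A` is not in `trees`:
CYCPOT; CASE1 contradicts the inequality; CASE2 and SAMECOUNT give `A'` with the same numbers and
`g_(A') = g_A + g₁`, contradiction to maximality. -/
def GoalTreeSurj : Prop := GoalSlack → GoalHall → GoalCycPot → GoalCase1 → GoalCase2 →
  GoalSameCount → GoalCycle → ∀ {V : Type} [Fintype V] [DecidableEq V] (H : Hyp V)
  (G : BG (Option V)), IsCirc H.α H.β G → ∀ (κ : Bool) (W : Finset V),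
  ∀ j ∈ G.J (sz κ W), ∃ A ∈ H.trees κ W, jof G κ W A = j

/-- TREE. `finsum_mem` over the image of the injective map `jof` on `trees`. -/
def GoalTree : Prop := (∀ {V : Type} [Fintype V] [DecidableEq V] (G : BG (Option V)) (κ : Bool)
    (W : Finset V) (A : V → Bool), G.deg (jof G κ W A) = cnt W A) →
  (∀ {V : Type} [Fintype V] [DecidableEq V] (H : Hyp V)
    (G : BG (Option V)), IsCirc H.α H.β G → ∀ (κ : Bool) (W : Finset V),
    Set.BijOn (jof G κ W) (H.trees κ W) (G.J (sz κ W))) →
  ∀ {V : Type} [Fintype V] [DecidableEq V] (H : Hyp V)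
    (G : BG (Option V)), IsCirc H.α H.β G → ∀ (κ : Bool) (W : Finset V),
    G.K (sz κ W) = ∑ A ∈ H.trees κ W, LaurentPolynomial.T (cnt W A)

/-! ### II c. Determinants and trees -/

/-- MTREE (matrix tree theorem for functional graphs). Row expansion
(`Matrix.detRowAlternating` is multilinear: sum over the choice functions `A`), and
`det (1 - N_A)` with `N_A i j = [τ i (A i) = some j]`: if some `i` is not accessible then the
indicator of the non accessible elements is in the kernel (`Matrix.exists_mulVec_eq_zero_iff`);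
otherwise the matrix is block triangular for the number of steps to the exit, with identity blocks:
the determinant is `1`. -/
def GoalMTree : Prop := ∀ {ι R : Type} [Fintype ι] [DecidableEq ι] [CommRing R]
  (w : ι → Bool → R) (τ : ι → Bool → Option ι),
  (Matrix.of fun i j => ∑ c : Bool, w i c *
    ((if j = i then 1 else 0) - (if τ i c = some j then 1 else 0))).det =
  ∑ A : ι → Bool, if (∀ i, Acc (fun j i => τ i (A i) = some j) i) then ∏ i, w i (A i) else 0

/-- EVAL. Row operations (determinant unchanged): for `v ∈ W` subtract the row `(v, false)` from the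
row `(v, true)`: it becomes `p v - q v`; for `v ∉ W` subtract `x` times the row `(v, false)`:
it becomes `p v - p (up v)`. Then MTREE with the targets: `(v, true)`, `v ∈ W`: only `(v, false)`
(weights `1, 0`); `(v, false)`, `v ∈ W`: `true` to `(up v, true)` with weight `1`, `false` to
`(dn v, false)` with weight `x`; `v ∉ W`: `(v, true)` only to `(up v, true)`, `(v, false)` only to
`(dn v, false)`. The choice functions with nonzero weight are those of `V`, and accessibility is
the same (the step `(v, true) → (v, false)` is inserted). -/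
def GoalEval : Prop := GoalMTree → ∀ {V R : Type} [Fintype V] [DecidableEq V] [CommRing R]
  (up dn : V → Option V) (W : Finset V) (x : R),
  (portMat up dn x (fun v => if v ∈ W then 1 else 0) (fun v => if v ∈ W then x else 1)).det =
  ∑ A ∈ Finset.univ.filter (fun A : V → Bool => (∀ v, v ∉ W → A v = true) ∧
    Reach up dn W A), x ^ (W.filter fun v => A v = false).card

/-- PHI. Both sides are affine in every channel (as in `Affine`; the determinant is linear in the
row `(v, false)`), so it is enough to compare them when every `a e` is `U 0` or `U 1`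
(induction over the channels): `U 0` has `R = 1, F = 0`, `U 1` has `R = T 1, F = 1`, so `Phi` is
`K` of the indicator, and the right side is `GP true` or `GP false`: EVAL and TREE. -/
def GoalPhi : Prop := (∀ {V R : Type} [Fintype V] [DecidableEq V] [CommRing R]
    (up dn : V → Option V) (W : Finset V) (x : R),
    (portMat up dn x (fun v => if v ∈ W then 1 else 0) (fun v => if v ∈ W then x else 1)).det =
    ∑ A ∈ Finset.univ.filter (fun A : V → Bool => (∀ v, v ∉ W → A v = true) ∧
      Reach up dn W A), x ^ (W.filter fun v => A v = false).card) →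
  (∀ {V : Type} [Fintype V] [DecidableEq V] (H : Hyp V)
    (G : BG (Option V)), IsCirc H.α H.β G → ∀ (κ : Bool) (W : Finset V),
    G.K (sz κ W) = ∑ A ∈ H.trees κ W, LaurentPolynomial.T (cnt W A)) →
  ∀ {V : Type} [Fintype V] [DecidableEq V] (H : Hyp V) (G : BG (Option V)),
    IsCirc H.α H.β G → ∀ a : Option V → Tg,
    G.Phi a = (a none).R * H.GP false (fun v => a (some v)) +
      (a none).F * (H.GP true (fun v => a (some v)) -
        LaurentPolynomial.T 1 * H.GP false (fun v => a (some v)))

/-! ### III. Responses -/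

section comp

variable {V : Type} [Fintype V] [DecidableEq V] {ι : V → Type} [∀ v, Fintype (ι v)]
  [∀ v, DecidableEq (ι v)]

/-- The matrix of a composite: blocks `A v`, the output `r1 w` of the block `w = up v` is fed into
the row `s1 v` of the block `v`, the output `r2 w` of `w = dn v` into the row `s2 v`. -/
noncomputable def compMat (up dn : V → Option V) (A : ∀ v, Matrix (ι v) (ι v) ℝ)
    (s1 s2 r1 r2 : ∀ v, ι v) (c1 c2 : V → ℝ) : Matrix (Σ v, ι v) (Σ v, ι v) ℝ :=
  Matrix.blockDiagonal' A
    - ∑ v, (up v).elim 0 (fun w => Matrix.single ⟨v, s1 v⟩ ⟨w, r1 w⟩ (c1 v))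
    - ∑ v, (dn v).elim 0 (fun w => Matrix.single ⟨v, s2 v⟩ ⟨w, r2 w⟩ (c2 v))

/-- response of one block -/
def NodeResp {κ : Type} [Fintype κ] [DecidableEq κ] (A : Matrix κ κ ℝ) (s1 s2 r1 r2 : κ)
    (c1 c2 x L R b : ℝ) : Prop :=
  A.det ≠ 0 ∧ ∀ s t : ℝ, ∃ h : κ → ℝ,
    A.mulVec h = Pi.single s1 (c1 * s) + Pi.single s2 (c2 * t) ∧
    (b + R) * h r1 = L * s + x * b * t ∧ (b + R) * h r2 = b * s + R * t

/-- value at a port, or the boundary value at an exit -/
def pv (y : Port V → ℝ) (d : Bool) (z : ℝ) (o : Option V) : ℝ := o.elim z fun w => y (w, d)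

/-- the port equations with the boundary values `s`, `t` -/
def PortEq (up dn : V → Option V) (x : ℝ) (L R b : V → ℝ) (s t : ℝ) (y : Port V → ℝ) : Prop :=
  ∀ v, (b v + R v) * y (v, true) = L v * pv y true s (up v) + x * b v * pv y false t (dn v) ∧
    (b v + R v) * y (v, false) = b v * pv y true s (up v) + R v * pv y false t (dn v)

end comp

/-- COMPDET. `compMat = blockDiagonal' A - P * Q`, `P` with the columns `(v, true)`:
`single ⟨v, s1 v⟩ (c1 v)`, `(v, false)`: `single ⟨v, s2 v⟩ (c2 v)`, `Q` with the rows `(v, true)`: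
indicator of `⟨w, r1 w⟩`, `w = up v` (zero for `none`), `(v, false)`: of `⟨w, r2 w⟩`, `w = dn v`. So
`det = det (blockDiagonal' A) * det (1 - Q * A⁻¹ * P)` (`Matrix.det_one_sub_mul_comm` etc.), the
columns of `A⁻¹ P` are the solutions for `(s,t) = (1,0)`, `(0,1)` in the block `v`, so
`Q A⁻¹ P = N * S` with `S` block diagonal, `S_v = [[L, x b], [b, R]] / (b + R)`, and `N` the 0/1 matrix
of `up`, `dn`; `det (1 - N S) = det (1 - S N)`. Finally `∏ (b + R) * det (1 - S N) =
det (portMat)`: in `1 - S N` add `x` times the row `(v, false)` to the row `(v, true)`: by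
`L + x b = b + R` it becomes the first row of `portMat`; multiply the row `(v, false)` by
`b v + R v`. -/
def GoalCompDet : Prop := ∀ {V : Type} [Fintype V] [DecidableEq V] {ι : V → Type}
  [∀ v, Fintype (ι v)] [∀ v, DecidableEq (ι v)] (up dn : V → Option V)
  (A : ∀ v, Matrix (ι v) (ι v) ℝ) (s1 s2 r1 r2 : ∀ v, ι v) (c1 c2 L R b : V → ℝ) (x : ℝ),
  (∀ v, NodeResp (A v) (s1 v) (s2 v) (r1 v) (r2 v) (c1 v) (c2 v) x (L v) (R v) (b v)) →
  (∀ v, L v - R v = (1 - x) * b v) → (∀ v, b v + R v ≠ 0) →
  (compMat up dn A s1 s2 r1 r2 c1 c2).det * ∏ v, (b v + R v) =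
    (∏ v, (A v).det) * (portMat up dn x b R).det

/-- COMPRESP. `h ⟨v, i⟩ = h_v i`, `h_v` the solution of the block `v` with the boundary values
`pv y true s (up v)`, `pv y false t (dn v)`. -/
def GoalCompResp : Prop := ∀ {V : Type} [Fintype V] [DecidableEq V] {ι : V → Type}
  [∀ v, Fintype (ι v)] [∀ v, DecidableEq (ι v)] (up dn : V → Option V)
  (A : ∀ v, Matrix (ι v) (ι v) ℝ) (s1 s2 r1 r2 : ∀ v, ι v) (c1 c2 L R b : V → ℝ) (x : ℝ),
  (∀ v, NodeResp (A v) (s1 v) (s2 v) (r1 v) (r2 v) (c1 v) (c2 v) x (L v) (R v) (b v)) →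
  (∀ v, b v + R v ≠ 0) → ∀ (s t : ℝ) (y : Port V → ℝ), PortEq up dn x L R b s t y →
  ∃ h : (Σ v, ι v) → ℝ,
    (compMat up dn A s1 s2 r1 r2 c1 c2).mulVec h =
      ∑ v, (if up v = none then Pi.single ⟨v, s1 v⟩ (c1 v * s) else 0) +
      ∑ v, (if dn v = none then Pi.single ⟨v, s2 v⟩ (c2 v * t) else 0) ∧
    (∀ v, h ⟨v, r1 v⟩ = y (v, true)) ∧ ∀ v, h ⟨v, r2 v⟩ = y (v, false)

/-- PORTRESP. `M = portMat up (dn true) x b R`, `M' = portMat up (dn false) x b R`, `a = det M ≠ 0`,
`B = det M'`. `PortEq` for `(s, t)` is `M y = ` (right side: row `(v, true)`: `s` if `up v = none`,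
plus `x t` if `dn v = none`; row `(v, false)`: `b v s` resp. `R v t`): the row combinations of
COMPDET. So there is a unique `y` for all `(s, t)`, linear in `(s, t)`, and `y = 1` for `s = t = 1`.
Sum of the rows `(v, true)` of the equations (all ports occur once among the targets, except
`(wl, true)` and `(r, false)`): `(y (wl, true) - s) + x (y (r, false) - t) = 0`. With
`k = y (r, false)` for `(1, 0)`: `y (r, false) = k s + (1 - k) t`,
`y (wl, true) = (1 - x k) s + x k t`. Finally `M' = M - u ⊗ e_(r, false)` where `u` is the right side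
for `(0, 1)` (the only `v` with `dn true v = none` is `v = β none`, and `dn false v = r`), so
`B = a (1 - (M⁻¹ u) (r, false)) = a (1 - (1 - k)) = a k` (rank one update). -/
def GoalPortResp : Prop := ∀ {V : Type} [Fintype V] [DecidableEq V] (H : Hyp V) (l r wl : V),
  H.α (some l) = none → H.β (some r) = none → H.α none = some wl →
  ∀ (x : ℝ) (L R b : V → ℝ), (∀ v, L v - R v = (1 - x) * b v) →
  (portMat H.up (H.dn true) x b R).det ≠ 0 → ∀ s t : ℝ, ∃ y : Port V → ℝ,
    PortEq H.up (H.dn true) x L R b s t y ∧
    (portMat H.up (H.dn true) x b R).det * y (wl, true) =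
      ((portMat H.up (H.dn true) x b R).det - x * (portMat H.up (H.dn false) x b R).det) * s +
        x * (portMat H.up (H.dn false) x b R).det * t ∧
    (portMat H.up (H.dn true) x b R).det * y (r, false) =
      (portMat H.up (H.dn false) x b R).det * s +
        ((portMat H.up (H.dn true) x b R).det - (portMat H.up (H.dn false) x b R).det) * t

/-- PORTPOS. Let `M₂` have the rows `(b + R) p - L p(up) - x b q(dn)`,
`(b + R) q - b p(up) - R q(dn)`; as in COMPDET `det M₂ = ∏ (b + R) * det portMat`. By MTREE
(`b + R = L + x b`) `det M₂` is a sum of products of positive numbers over the choice functions on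
ports all of whose ports lead to the exit, so it is enough to find one: every port must have some
path to the exit (then choose for every port a step that shortens the path). Both ports of `v`
have the same targets. Let `Y` be the set of the crossings whose ports have no path to the exit:
closed under `up` and `dn`, which never give `none` on `Y`. So `α` maps `Y` into `Y`, hence
`Y` is `α`-invariant (finite), and `none`, `α none`, `α⁻¹ none` are not in it. For `κ = true` also
`β⁻¹` maps `Y` into `Y`: the indicator of `Y` is `α`- and `β`-invariant and `0` at `none`: `conn`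
gives `Y = ∅`. For `κ = false` `Y` is invariant under `removeNone β`. If `β none` is not in `Y` then
`Y` is `β`-invariant, as before. If it is, `Y ∪ {none}` is `β`-invariant: for the `g` of `cut` the
function `i = g ∘ α - g` has sum zero over `Y` (`α`-invariant) and over `Y ∪ {none}`
(`β`-invariant, `g ∘ α = g ∘ β`), so `i none = 0`, contradiction to `cut`. -/
def GoalPortPos : Prop := GoalMTree → ∀ {V : Type} [Fintype V] [DecidableEq V] (H : Hyp V)
  (κ : Bool) (x : ℝ) (L R b : V → ℝ), 0 < x → (∀ v, L v - R v = (1 - x) * b v) →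
  (∀ v, 0 < L v ∧ 0 < R v ∧ 0 < b v) → 0 < (portMat H.up (H.dn κ) x b R).det

/-- MATFILL. Unfold; the rows of `fill` at `⟨v, p⟩`: the step along `underNext` is the step inside
`M v` unless `p = (M v).l`, then it goes to `⟨w, underNext l_w⟩`, `w = removeNone α v`, which for
`v ≠ l` is `α v`, and for `v = l` it is cancelled by `stepU`; the step against `overNext` from
`⟨v, p⟩` goes inside `M v` unless `p = overNext r_v`, then it goes to `⟨w, r_w⟩`,
`w = (removeNone β)⁻¹ v`; for `v = β none` it is cancelled by `stepO` (the row of `stepO ⟨r, _⟩` is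
`overNext` of the mark). -/
def GoalMatFill : Prop := ∀ {V : Type} [Fintype V] [DecidableEq V] (S : Skel V) (M : V → Marked)
  (x : ℝ), openMat true (fill S.D S.l S.r M) x =
    compMat (ι := fun v => (M v).V) (fun v => S.D.underNext (some v))
      (fun v => S.D.overNext.symm (some v)) (fun v => openMat true (M v) x)
      (fun v => (M v).l) (fun v => (M v).D.overNext (M v).r)
      (fun v => (M v).D.underNext (M v).l) (fun v => (M v).r)
      (fun v => fwd (M v).D x (M v).l)
      (fun v => bwd (M v).D x ((M v).D.overNext (M v).r))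

/-- EVHOM. -/
def GoalEvHom : Prop := ∀ x : ℝ, 0 < x → ∃ φ : LaurentPolynomial ℝ →+* ℝ,
  (∀ f, φ f = ev f x) ∧ ∀ n : ℤ, φ (LaurentPolynomial.T n) = x ^ n

/-- The tangle diagram `M` has the polynomials of `S`, and `S` is in HH1. -/
def ParOK (M : Marked) (S : Tg) : Prop :=
  S.HH1 ∧ Vals (ev S.L) (ev S.R) (ev S.F) ∧ (∃ j, Resp2 M j (ev S.L) (ev S.R) (ev S.F)) ∧
    ∃ k, Index true M k

/-- INDEXFILL. `k ⟨v, p⟩ = k_v p`. -/
def GoalIndexFill : Prop := ∀ {V : Type} [Fintype V] [DecidableEq V] (S : Skel V)
  (M : V → Marked), (∀ v, ∃ k, Index true (M v) k) → ∃ k, Index true (fill S.D S.l S.r M) k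

/-- SUBSTALL. GoalSubst for the channels different from `k₀` one after the other (starting from
`a = fun _ => U 0`), then GoalPos1. -/
def GoalSubstAll : Prop := GoalSubst → GoalPos1 → GoalCoefH → GoalOpMap → GoalNonneg →
  ∀ (J : Type) [Fintype J] [DecidableEq J] (Φ : (J → Tg) → LaurentPolynomial ℝ),
  Affine Φ → SlotNonneg Φ → Pos Φ (fun _ => True) (fun _ => U 0) →
  ∀ (k₀ : J) (a : J → Tg), (∀ k, k ≠ k₀ → (a k).HH1) → (slot Φ a k₀).HH1

/-- FILL (assembly). `a (some v) = S v`, `a none = U 0`. HH1 of `Q = slot G.Phi a none`: part I and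
SUBSTALL. By PHI: `Q.F = GP false`, `Q.L = GP true - T * GP false`, `Q.R = GP true - GP false`; by
EVHOM (`RingHom.map_det`) the values at `x` are the determinants of the real port matrices for
`b = ev (S v).F`, `R = ev (S v).R`; positivity of `Q.F` and `Q.F + Q.R`: PORTPOS; of `Q.R`, `Q.L`:
their coefficients are nonnegative; if `Q.R = 0` then `Q.L = (1 - T) Q.F` has the value `0` at
`x = 1`, so `Q.L = 0`, so `Q.F = 0`, contradiction; in the same way for `Q.L`. `Resp2`: MATFILL,
COMPDET, COMPRESP, PORTRESP (`underNext` of the mark `⟨l, _⟩` is `⟨wl, underNext l_wl⟩`). -/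
def GoalFill : Prop := GoalEvHom → GoalMatFill → GoalCompDet → GoalCompResp → GoalPortResp →
  (∀ {V : Type} [Fintype V] [DecidableEq V] (H : Hyp V)
    (κ : Bool) (x : ℝ) (L R b : V → ℝ), 0 < x → (∀ v, L v - R v = (1 - x) * b v) →
    (∀ v, 0 < L v ∧ 0 < R v ∧ 0 < b v) → 0 < (portMat H.up (H.dn κ) x b R).det) →
  GoalIndexFill → ∀ {V : Type} [Fintype V] [DecidableEq V] (S : Skel V) (H : Hyp V)
  (G : BG (Option V)), H.α = S.D.underNext → H.β = S.D.overNext →
  (∀ a : Option V → Tg, G.Phi a = (a none).R * H.GP false (fun v => a (some v)) +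
      (a none).F * (H.GP true (fun v => a (some v)) -
        LaurentPolynomial.T 1 * H.GP false (fun v => a (some v)))) →
  (∀ a : Option V → Tg, (∀ v, (a (some v)).HH1) → (slot G.Phi a none).HH1) →
  ∀ (M : V → Marked) (s : V → Tg), (∀ v, ParOK (M v) (s v)) →
  ∃ Q, ParOK (fill S.D S.l S.r M) Q

end Pool.Agent.Helper99.PG
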