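import Pool.Agent.Helper99.PG.Goals1

/-! Couplings of nonnegative tangles. -/

namespace Pool.Agent.Helper99.PG

open Pool.Agent.Helper52.C2

private theorem clsym {u v s t : ℝ} (h : u ≤ v) (h' : s ≤ t) :
    max u (min v t) - max u (min v s) = max s (min t v) - max s (min t u) := by
  rcases le_total u s with a | a <;> rcases le_total u t with b | b <;>
  rcases le_total v s with c | c <;> rcases le_total v t with d | d <;>
  simp only [max_def, min_def] <;> split_ifs <;> linarith

private theorem tele (f : ℤ → ℝ) (lo : ℤ) (n : ℕ) :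
    ∑ b ∈ Finset.Ico lo (lo + n), (f b - f (b - 1)) = f (lo + n - 1) - f (lo - 1) := by
  induction n with
  | zero => simp
  | succ k ih =>
    have e : Finset.Ico lo (lo + ((k + 1 : ℕ) : ℤ)) = insert (lo + k) (Finset.Ico lo (lo + k)) := by
      ext x; simp only [Finset.mem_Ico, Finset.mem_insert]; push_cast; omega
    rw [e, Finset.sum_insert (by simp), ih]
    push_cast
    have : lo + ((k : ℤ) + 1) - 1 = lo + k := by ring
    rw [this]
    ring

/-- sum over a finite set that contains all jumps -/
private theorem tele' (f : ℤ → ℝ) (K : ℤ) (hK : 0 < K) (s : Finset ℤ)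
    (hs : ∀ b, b ∉ s → f b - f (b - 1) = 0) (hs' : ∀ b ∈ s, -K < b ∧ b < K) :
    ∑ b ∈ s, (f b - f (b - 1)) = f K - f (-K) := by
  have h1 : ∑ b ∈ s, (f b - f (b - 1)) =
      ∑ b ∈ Finset.Ico (-K + 1) (-K + 1 + (2 * K).toNat), (f b - f (b - 1)) := by
    refine Finset.sum_subset ?_ ?_
    · intro b hb
      have := hs' b hb
      rw [Finset.mem_Ico]
      omega
    · intro b _ hb
      exact hs b hb
  rw [h1, tele]
  have e1 : -K + 1 + ((2 * K).toNat : ℤ) - 1 = K := by omega
  have e2 : -K + 1 - 1 = -K := by ring
  rw [e1, e2]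

theorem coup' : GoalCoup := by
  intro hpre S hS
  obtain ⟨hF, hd, -, -, -⟩ := hpre
  set p : ℤ → ℝ := pre S.L with hp
  set q : ℤ → ℝ := pre S.R with hq
  have hpd : ∀ a, p a - p (a - 1) = S.L.coeff a := fun a => hd S.L a
  have hqd : ∀ a, q a - q (a - 1) = S.R.coeff a := fun a => hd S.R a
  have hpm : ∀ a, p (a - 1) ≤ p a := fun a => by have := hpd a; have := hS.L a; linarith
  have hqm : ∀ a, q (a - 1) ≤ q a := fun a => by have := hqd a; have := hS.R a; linarith
  have hmono : ∀ (f : ℤ → ℝ), (∀ a, f (a - 1) ≤ f a) → Monotone f := by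
    intro f hf
    refine monotone_int_of_le_succ fun n => ?_
    have := hf (n + 1)
    simpa using this
  have hpM := hmono p hpm
  have hqM := hmono q hqm
  have hqp : ∀ i, q i ≤ p i := fun i => by
    have := hF S i
    have := hS.F i
    simp only [hp, hq]
    linarith
  -- a bound for all supports
  obtain ⟨K, hK0, hK⟩ : ∃ K : ℤ, 0 < K ∧ ∀ i ∈ S.L.coeff.support ∪ S.R.coeff.support ∪
      S.F.coeff.support, -K < i ∧ i < K := by
    refine ⟨∑ i ∈ S.L.coeff.support ∪ S.R.coeff.support ∪ S.F.coeff.support, |i| + 1, ?_, ?_⟩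
    · have : 0 ≤ ∑ i ∈ S.L.coeff.support ∪ S.R.coeff.support ∪ S.F.coeff.support, |i| :=
        Finset.sum_nonneg fun i _ => abs_nonneg i
      omega
    · intro i hi
      have := Finset.single_le_sum (f := fun i : ℤ => |i|) (fun j _ => abs_nonneg j) hi
      have h2 := abs_le.1 this
      omega
  have hpL : p (-K) = 0 := by
    simp only [hp, pre]
    refine Finset.sum_eq_zero fun i hi => ?_
    have := hK i (by simp only [Finset.mem_union]; exact Or.inl (Or.inl hi))
    rw [if_neg (by omega)]
  have hqL : q (-K) = 0 := by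
    simp only [hq, pre]
    refine Finset.sum_eq_zero fun i hi => ?_
    have := hK i (by simp only [Finset.mem_union]; exact Or.inl (Or.inr hi))
    rw [if_neg (by omega)]
  have hpq : p K = q K := by
    have h1 := hF S K
    have h2 : S.F.coeff K = 0 := by
      by_contra h
      have := hK K (by
        simp only [Finset.mem_union]
        exact Or.inr (Finsupp.mem_support_iff.2 h))
      omega
    simp only [hp, hq]
    linarith
  have hpK : ∀ a, p a ≤ p K := by
    intro a
    by_cases ha : a ≤ K
    · exact hpM ha
    · have : p a = p K := by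
        simp only [hp, pre]
        refine Finset.sum_congr rfl fun i hi => ?_
        have := hK i (by simp only [Finset.mem_union]; exact Or.inl (Or.inl hi))
        rw [if_pos (by omega), if_pos (by omega)]
      exact this.le
  have hqK : ∀ a, q a ≤ q K := by
    intro a
    by_cases ha : a ≤ K
    · exact hqM ha
    · have : q a = q K := by
        simp only [hq, pre]
        refine Finset.sum_congr rfl fun i hi => ?_
        have := hK i (by simp only [Finset.mem_union]; exact Or.inl (Or.inr hi))
        rw [if_pos (by omega), if_pos (by omega)]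
      exact this.le
  have hp0 : ∀ a, 0 ≤ p a := by
    intro a
    simp only [hp, pre]
    refine Finset.sum_nonneg fun i _ => ?_
    split_ifs
    · exact hS.L i
    · exact le_rfl
  have hq0 : ∀ a, 0 ≤ q a := by
    intro a
    simp only [hq, pre]
    refine Finset.sum_nonneg fun i _ => ?_
    split_ifs
    · exact hS.R i
    · exact le_rfl
  let M : ℤ × ℤ → ℝ := fun c =>
    max (p (c.1 - 1)) (min (p c.1) (q c.2)) - max (p (c.1 - 1)) (min (p c.1) (q (c.2 - 1)))
  have hMs : ∀ c : ℤ × ℤ, M c =
      max (q (c.2 - 1)) (min (q c.2) (p c.1)) - max (q (c.2 - 1)) (min (q c.2) (p (c.1 - 1))) :=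
    fun c => clsym (hpm c.1) (hqm c.2)
  have hM1 : ∀ c : ℤ × ℤ, c.1 ∉ S.L.coeff.support → M c = 0 := by
    intro c hc
    have h1 := hpd c.1
    rw [Finsupp.notMem_support_iff.1 hc] at h1
    have h2 : p c.1 = p (c.1 - 1) := by linarith
    rw [hMs, h2, sub_self]
  have hM2 : ∀ c : ℤ × ℤ, c.2 ∉ S.R.coeff.support → M c = 0 := by
    intro c hc
    have h1 := hqd c.2
    rw [Finsupp.notMem_support_iff.1 hc] at h1
    have h2 : q c.2 = q (c.2 - 1) := by linarith
    simp only [M]
    rw [h2, sub_self]
  let m : ℤ × ℤ →₀ ℝ := Finsupp.onFinset (S.L.coeff.support ×ˢ S.R.coeff.support) M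
    (fun c hc => by
      rw [Finset.mem_product]
      exact ⟨by by_contra h; exact hc (hM1 c h), by by_contra h; exact hc (hM2 c h)⟩)
  have hm : ∀ c, m c = M c := fun c => rfl
  have hsum : ∀ (P : ℤ × ℤ → Prop) [DecidablePred P], (∑ c ∈ m.support, if P c then m c else 0) =
      ∑ c ∈ S.L.coeff.support ×ˢ S.R.coeff.support, if P c then M c else 0 := by
    intro P _
    refine Finset.sum_subset Finsupp.support_onFinset_subset ?_
    intro c _ hc
    have := Finsupp.notMem_support_iff.1 hc
    split_ifs
    · exact this
    · rfl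
  refine ⟨{ m := m, nonneg := ?_, le := ?_, left := ?_, right := ?_ }⟩
  · intro c
    rw [hm]
    simp only [M]
    have := hqm c.2
    have := max_le_max_left (p (c.1 - 1)) (min_le_min_left (p c.1) this)
    linarith
  · intro c hc
    by_contra h
    push Not at h
    apply hc
    rw [hm]
    simp only [M]
    have h1 : q c.2 ≤ p (c.1 - 1) := (hqp c.2).trans (hpM (by omega))
    have h2 : q (c.2 - 1) ≤ p (c.1 - 1) := (hqm c.2).trans h1
    rw [max_eq_left ((min_le_right _ _).trans h1), max_eq_left ((min_le_right _ _).trans h2),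
      sub_self]
  · intro a
    rw [hsum (fun c => c.1 = a), Finset.sum_product]
    have : ∀ x ∈ S.L.coeff.support, (∑ y ∈ S.R.coeff.support, if x = a then M (x, y) else 0) =
        if x = a then ∑ y ∈ S.R.coeff.support, M (a, y) else 0 := by
      intro x _
      split_ifs with h
      · rw [h]
      · simp
    rw [Finset.sum_congr rfl this, Finset.sum_ite_eq' S.L.coeff.support a]
    split_ifs with h
    · have h1 := tele' (fun b => max (p (a - 1)) (min (p a) (q b))) K hK0 S.R.coeff.support
        (fun b hb => hM2 (a, b) hb)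
        (fun b hb => hK b (by simp only [Finset.mem_union]; exact Or.inl (Or.inr hb)))
      rw [show (∑ y ∈ S.R.coeff.support, M (a, y)) = _ from h1]
      rw [hqL, ← hpq, min_eq_left (hpK a), max_eq_right (hpm a), min_eq_right (hp0 a),
        max_eq_left (hp0 _)]
      exact hpd a
    · exact (Finsupp.notMem_support_iff.1 h).symm
  · intro a
    rw [hsum (fun c => c.2 = a), Finset.sum_product_right]
    have : ∀ y ∈ S.R.coeff.support, (∑ x ∈ S.L.coeff.support, if y = a then M (x, y) else 0) =
        if y = a then ∑ x ∈ S.L.coeff.support, M (x, a) else 0 := by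
      intro x _
      split_ifs with h
      · rw [h]
      · simp
    rw [Finset.sum_congr rfl this, Finset.sum_ite_eq' S.R.coeff.support a]
    split_ifs with h
    · have h1 := tele' (fun b => max (q (a - 1)) (min (q a) (p b))) K hK0 S.L.coeff.support
        (fun b hb => by
          have := hM1 (b, a) hb
          rw [hMs] at this
          exact this)
        (fun b hb => hK b (by simp only [Finset.mem_union]; exact Or.inl (Or.inl hb)))
      have h2 : (∑ x ∈ S.L.coeff.support, M (x, a)) = ∑ b ∈ S.L.coeff.support,
          ((fun b => max (q (a - 1)) (min (q a) (p b))) b -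
            (fun b => max (q (a - 1)) (min (q a) (p b))) (b - 1)) :=
        Finset.sum_congr rfl fun x _ => hMs (x, a)
      rw [h2, h1]
      rw [hpL, hpq, min_eq_left (hqK a), max_eq_right (hqm a), min_eq_right (hq0 a),
        max_eq_left (hq0 _)]
      exact hqd a
    · exact (Finsupp.notMem_support_iff.1 h).symm

end Pool.Agent.Helper99.PG
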