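import Pool.Agent.Helper37.Arb.Goals
import Pool.Agent.Helper52.C2.Ker

/-!
PROJECT C2, target (a): special alternating diagrams with tangles substituted for the crossings.
Definitions.
-/

namespace Pool.Agent.Helper99.PG

open Pool.Agent.Helper36.SC Pool.Agent.Helper37.Arb Pool.Agent.Helper52.C2
open scoped Classical

/-! ### Graphs: the kernel -/

/-- A bipartite multigraph with edge set `E`: circles `C`, the edge `e` joins the left circle
`lf e` and the right circle `rt e`. -/
structure BG (E : Type) where
  /-- circles -/
  C : Type
  /-- finitely many -/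
  fin : Fintype C
  /-- left end -/
  lf : E → C
  /-- right end -/
  rt : E → C
  /-- colour -/
  left : C → Prop
  lf_left : ∀ e, left (lf e)
  rt_left : ∀ e, ¬ left (rt e)

attribute [instance] BG.fin

section kernel

variable {E : Type} [Fintype E] (G : BG E)

/-- the lattice points of sizes `n` -/
def BG.J (n : E → ℤ) : Set (G.C → ℤ) :=
  {j | ∑ c, j c = ∑ e, n e - Fintype.card G.C + 1 ∧
    ∀ U : Finset G.C, U.Nonempty → U ≠ Finset.univ →
      ∑ c ∈ U, j c ≤ ∑ e with (G.lf e ∈ U ∨ G.rt e ∈ U), n e - U.card}

/-- weight exponent of a lattice point -/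
noncomputable def BG.deg (j : G.C → ℤ) : ℤ :=
  ∑ c with G.left c, (j c + 1) - 1

/-- the polynomial of the sizes `n` -/
noncomputable def BG.K (n : E → ℤ) : LaurentPolynomial ℝ :=
  ∑ᶠ (j : G.C → ℤ) (_ : j ∈ G.J n), LaurentPolynomial.T (G.deg j)

/-- the kernel: the multiaffine function with the values `K` at the sizes `0, 1` -/
noncomputable def BG.Phi (a : E → Tg) : LaurentPolynomial ℝ :=
  ∑ P : Finset E, (∏ v ∈ P, (a v).F) *
    (∏ v ∈ Pᶜ, ((a v).R - LaurentPolynomial.T 1 * (a v).F)) *
    G.K (fun e => if e ∈ P then 1 else 0)

end kernel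

/-! ### Hypermaps -/

/-- Planarity as a property of functions: a function with sum zero on all cycles of `α` and all
cycles of `β` is `g ∘ α - g = g ∘ β - g`. -/
def PotProp {E : Type} [Fintype E] (α β : Equiv.Perm E) : Prop :=
  ∀ i : E → ℝ, (∀ f : E → ℝ, (∀ e, f (α e) = f e) → ∑ e, f e * i e = 0) →
    (∀ f : E → ℝ, (∀ e, f (β e) = f e) → ∑ e, f e * i e = 0) →
    ∃ g : E → ℝ, (∀ e, i e = g (α e) - g e) ∧ ∀ e, g (β e) = g (α e)

/-- connectedness as a property of functions -/
def ConnProp {E : Type} (α β : Equiv.Perm E) : Prop :=
  ∀ f : E → ℝ, (∀ e, f (α e) = f e) → (∀ e, f (β e) = f e) → ∀ e e', f e = f e'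

/-- A planar connected hypermap with a marked element `none`; `left` circles are the cycles of
`α`, right circles the cycles of `β`, the step from `v` goes to `α v` (weight `1`) or to `β⁻¹ v`
(weight `x`). -/
structure Hyp (V : Type) [Fintype V] where
  /-- left permutation -/
  α : Equiv.Perm (Option V)
  /-- right permutation -/
  β : Equiv.Perm (Option V)
  conn : ConnProp α β
  pot : PotProp α β
  hα : α none ≠ none
  hβ : β none ≠ none
  /-- the element `none` can be removed (the regions in front of it and behind it differ) -/
  cut : ∃ g : Option V → ℝ, (∀ e, g (β e) = g (α e)) ∧ g (α none) ≠ g none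

/-- The graph of the circles of a hypermap. -/
def IsCirc {E : Type} (α β : Equiv.Perm E) (G : BG E) : Prop :=
  (∀ e e', G.lf e = G.lf e' ↔ α.SameCycle e e') ∧
  (∀ e e', G.rt e = G.rt e' ↔ β.SameCycle e e') ∧
  ∀ c, (∃ e, G.lf e = c) ∨ ∃ e, G.rt e = c

section ports

variable {V : Type}

/-- Ports: `(v, true)` is the end where the overpass enters `v`, `(v, false)` the end where the
overpass leaves `v`. -/
abbrev Port (V : Type) := V × Bool

/-- The next port in the direction `d`: `true` is along `α`, `false` is against `β`; `none` is
the exit. -/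
def nxt (up dn : V → Option V) (v : V) (d : Bool) : Option (Port V) :=
  if d then (up v).map (fun w => (w, true)) else (dn v).map (fun w => (w, false))

/-- Successor of a port for a choice function `A`, which is used only at the crossings in `W`;
the others are passed straight. -/
noncomputable def suc (up dn : V → Option V) (W : Finset V) (A : V → Bool) (p : Port V) :
    Option (Port V) :=
  nxt up dn p.1 (if p.1 ∈ W then A p.1 else p.2)

/-- all ports lead to the exit -/
def Reach (up dn : V → Option V) (W : Finset V) (A : V → Bool) : Prop :=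
  ∀ p : Port V, Acc (fun q p => suc up dn W A p = some q) p

variable [Fintype V]

/-- target along `α` -/
def Hyp.up (H : Hyp V) (v : V) : Option V := H.α (some v)

/-- target against `β`; for `κ = true` the element `none` is an exit, for `κ = false` it is
passed. -/
noncomputable def Hyp.dn (H : Hyp V) (κ : Bool) (v : V) : Option V :=
  if κ then H.β.symm (some v) else some ((Equiv.removeNone H.β).symm v)

/-- sizes `1` on `W` and, for `κ = true`, on `none`, sizes `0` elsewhere -/
noncomputable def sz (κ : Bool) (W : Finset V) : Option V → ℤ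
  | none => if κ then 1 else 0
  | some v => if v ∈ W then 1 else 0

/-- the number of choices against `β` -/
noncomputable def cnt (W : Finset V) (A : V → Bool) : ℤ := ((W.filter fun v => A v = false).card : ℤ)

/-- the set of choice functions that is counted -/
noncomputable def Hyp.trees (H : Hyp V) (κ : Bool) (W : Finset V) : Finset (V → Bool) :=
  Finset.univ.filter fun A => (∀ v, v ∉ W → A v = true) ∧ Reach H.up (H.dn κ) W A

/-- The port matrix: the row `(v, true)` is `p v + x q v - p (up v) - x q (dn v)`, the row
`(v, false)` is `b v (q v - p (up v)) + r v (q v - q (dn v))`; `p v`, `q v` are the columns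
`(v, true)`, `(v, false)`, and `none` is zero. -/
noncomputable def portMat {R : Type} [CommRing R] (up dn : V → Option V) (x : R)
    (b r : V → R) : Matrix (Port V) (Port V) R := fun i j =>
  let p : Option V → R := fun o => if o.map (fun w => (w, true)) = some j then 1 else 0
  let q : Option V → R := fun o => if o.map (fun w => (w, false)) = some j then 1 else 0
  if i.2 then p (some i.1) + x * q (some i.1) - p (up i.1) - x * q (dn i.1)
  else b i.1 * (q (some i.1) - p (up i.1)) + r i.1 * (q (some i.1) - q (dn i.1))

/-- the port determinant of tangles -/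
noncomputable def Hyp.GP (H : Hyp V) (κ : Bool) (a : V → Tg) : LaurentPolynomial ℝ :=
  (portMat H.up (H.dn κ) (LaurentPolynomial.T 1) (fun v => (a v).F) fun v => (a v).R).det

end ports

/-! ### Diagrams -/

/-- Move the marked elements `m v` along `e`. -/
def mv {V : Type} {B : V → Type} [∀ v, DecidableEq (B v)] (e : V → V) (m : ∀ v, B v)
    (x : Σ v, B v) : Σ v, B v :=
  if x.2 = m x.1 then ⟨e x.1, m (e x.1)⟩ else x

theorem mv_mark {V : Type} {B : V → Type} [∀ v, DecidableEq (B v)] (e : V → V) (m : ∀ v, B v)
    (v : V) : mv e m ⟨v, m v⟩ = ⟨e v, m (e v)⟩ := if_pos rfl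

theorem mv_ne {V : Type} {B : V → Type} [∀ v, DecidableEq (B v)] (e : V → V) (m : ∀ v, B v)
    (v : V) (y : B v) (h : y ≠ m v) : mv e m ⟨v, y⟩ = ⟨v, y⟩ := if_neg h

theorem mv_mv {V : Type} {B : V → Type} [∀ v, DecidableEq (B v)] (e f : V → V) (m : ∀ v, B v)
    (h : ∀ v, f (e v) = v) (x : Σ v, B v) : mv f m (mv e m x) = x := by
  obtain ⟨v, y⟩ := x
  by_cases hy : y = m v
  · subst hy
    rw [mv_mark, mv_mark, h]
  · rw [mv_ne e m v y hy, mv_ne f m v y hy]

/-- Move the marked elements `m v` along the permutation `e`. -/
def moveSigma {V : Type} {B : V → Type} [∀ v, DecidableEq (B v)] (e : Equiv.Perm V)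
    (m : ∀ v, B v) : Equiv.Perm (Σ v, B v) where
  toFun := mv e m
  invFun := mv e.symm m
  left_inv := mv_mv _ _ _ e.symm_apply_apply
  right_inv := mv_mv _ _ _ e.apply_symm_apply

/-- The complement of the crossing `none` of the diagram `D`, with the crossing `v` replaced by
the parallel tangle `M v`. The marked ends are those that were joined to `none`: `l`, `r` are the
crossings with `D.underNext l = none`, `D.overNext r = none`. -/
def fill {V : Type} [DecidableEq V] [Fintype V] (D : AltDiagram (Option V)) (l r : V)
    (M : V → Marked) : Marked where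
  V := Σ v, (M v).V
  dec := inferInstance
  fin := inferInstance
  D :=
    { pos := fun x => (M x.1).D.pos x.2
      overNext := (moveSigma (Equiv.removeNone D.overNext) fun v => (M v).r).trans
        (Equiv.sigmaCongrRight fun v => (M v).D.overNext)
      underNext := (moveSigma (Equiv.removeNone D.underNext) fun v => (M v).l).trans
        (Equiv.sigmaCongrRight fun v => (M v).D.underNext) }
  l := ⟨l, (M l).l⟩
  r := ⟨r, (M r).r⟩

/-- A special alternating diagram with a marked crossing `none` that is not nugatory. -/
structure Skel (V : Type) where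
  /-- the diagram -/
  D : AltDiagram (Option V)
  pos : ∀ v, D.pos v = true
  connected : D.Connected
  planar : D.Planar
  /-- the under end that goes to `none` -/
  l : V
  /-- the over end that goes to `none` -/
  r : V
  hl : D.underNext (some l) = none
  hr : D.overNext (some r) = none
  cut : D.region (none, .front) ≠ D.region (none, .back)

/-- value of a real Laurent polynomial at `x` -/
noncomputable def ev (f : LaurentPolynomial ℝ) (x : ℝ) : ℝ :=
  f.coeff.sum fun n a => a * x ^ n

end Pool.Agent.Helper99.PG
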