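import Pool.Agent.Helper99.PG.Goals
import Pool.Agent.Helper68.SK.Goals

/-!
PROJECT C2, target (a): part I, bridge from the kernel theorem of PROJECT SK to `BG.Phi`.
Complete proofs in words are in the docstrings.
-/

namespace Pool.Agent.Helper99.PG

open Pool.Agent.Helper52.C2 Pool.Agent.Helper68
open scoped Classical

/-- the multigraph of the circles -/
def BG.g {E : Type} (G : BG E) (e : E) : G.C × G.C := (G.lf e, G.rt e)

/-- its colouring, `true` = left -/
noncomputable def BG.c {E : Type} (G : BG E) (c : G.C) : Bool := decide (G.left c)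

/-- PHIAFF. (1) `BG.Phi` is affine in every channel `k`: split the sum over `P` by `k ∈ P`; with
`Φ₁ = ∑_(P ∌ k) (∏_P F) (∏_(P ∪ {k})ᶜ (R - T F)) K(1_(P ∪ {k}))` and `Φ₀` the same with `K(1_P)` the value at
the tangle `S` in the channel `k` is `S.F * Φ₁ + (S.R - T 1 * S.F) * Φ₀`; `U 0` has `R = 1`,
`F = 0`: `Φ₀`; `U 1` has `R = T 1`, `F = 1`: `Φ₁` (`geo 0 = 0`, `geo 1 = 1`).
(2) the value at rings of sizes `0, 1` is `K` of the indicator: only the term `P` remains. -/
def GoalPhiAff : Prop := ∀ {E : Type} [Fintype E] [DecidableEq E] (G : BG E), Affine G.Phi ∧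
  ∀ P : Finset E, G.Phi (fun e => U (if e ∈ P then 1 else 0)) =
    G.K (fun e => if e ∈ P then 1 else 0)

/-- KCNT. `j ↦ z`, `z (inl c) = j c + 1`, `z (inr e) = - n e`, is a bijection from the `j ∈ J n` with
`deg j = i` onto the `z ∈ JJ` with `push z = wt 1 n i` (`∑ z = ∑ j + |C| - ∑ n`; `mass z U =
∑_U j + |U| - ∑_(e hits U) n e`; the coordinate `inl true` of `push z` is `∑_(c left) (j c + 1) =
deg j + 1`, the coordinate `inl false` follows from the total, `inr e` is `- n e`). `J n` is finite: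
the total is fixed and if there are at least two circles every `j c` is bounded above
(`U = {c}`); or by GoalFin with one colour. So `K n` is a finite sum, and the coefficient `i` of
`T (deg j)` is `1` or `0`. -/
def GoalKCnt : Prop := SK.GoalFin → ∀ {E : Type} [Fintype E] [DecidableEq E] (G : BG E)
  (n : E → ℤ) (i : ℤ), (G.K n).coeff i = SK.cnt G.g G.c (SK.wt 1 n i)

/-- THREE. Three terms relation. Let `u = (g e).1` (colour `true`), `v = (g e).2` (colour `false`).
Let `w` be the vector `true : i + k - 1`, `false : ∑ n + 1 - (i + k)`, `e' : - n e'` (total `0`). The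
four counts are the numbers of the `y` with `push y = w` (`k` and `n` as in `w`) and
`y + δ u + δ v - δ e ∈ JJ`, `y + δ e ∈ JJ`, `y + δ u ∈ JJ`, `y + δ v ∈ JJ` respectively (`SUB` (6): the
translations are bijections; sets are finite by `FIN`). For `U` nonempty proper put
`m(U) = mass y U`.
`y + δ e ∈ JJ` iff (`m(U) + [u ∈ U or v ∈ U] ≤ 0` for all `U`) iff (`y + δ u ∈ JJ` and
`y + δ v ∈ JJ`). `y + δ u + δ v - δ e ∈ JJ` iff `m(U) + [u ∈ U and v ∈ U] ≤ 0` for all `U`, iff
(`y + δ u ∈ JJ` or `y + δ v ∈ JJ`): `⇐` is clear. `⇒`: otherwise there are `U₁`, `U₂` with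
`m(U₁) + [u ∈ U₁] > 0` and `m(U₂) + [v ∈ U₂] > 0`; as `m ≤ 0` on proper sets this means
`m(U₁) = 0`, `u ∈ U₁`, and `v ∉ U₁` (else `m(U₁) ≤ -1`), in the same way `m(U₂) = 0`, `v ∈ U₂`,
`u ∉ U₂`. `e` hits `U₁` and `U₂` and not `U₁ ∩ U₂`, so by `SUB` (3)
`0 = m(U₁) + m(U₂) ≤ m(U₁ ∪ U₂) + m(U₁ ∩ U₂) - n e`; `m(U₁ ∩ U₂) ≤ 0` (also for the empty set),
`m(U₁ ∪ U₂) ≤ 0` (also for the full set, total `0`), `n e ≥ 1`: contradiction.
So the indicators satisfy `1[both or one] + 1[both] = 1[u] + 1[v]`. -/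
def GoalThree : Prop := SK.GoalSub → SK.GoalFin → ∀ {V E : Type} [Fintype V] [DecidableEq V]
  [Fintype E] [DecidableEq E] (g : E → V × V) (c : V → Bool) (k : ℤ) (e : E),
  c (g e).1 = true → c (g e).2 = false → ∀ n : E → ℤ, (∀ e', 0 ≤ n e') → 1 ≤ n e → ∀ i : ℤ,
  SK.cnt g c (SK.wt k (n + Pi.single e 1) i) + SK.cnt g c (SK.wt k (n - Pi.single e 1) (i - 1)) =
    SK.cnt g c (SK.wt k n i) + SK.cnt g c (SK.wt k n (i - 1))

/-- MONO. The maps `z ↦ z - δ (inr e) + δ (inl v)`, `z ↦ z - δ (inr e) + δ (inl u)` with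
`u = (g e).1`, `v = (g e).2` preserve `JJ` (`FIN` (4)), are injective and map the vectors over
`wt k n i`, `wt k n (i - 1)` to vectors over `wt k (n + e) i`. Also `0 ≤ cnt`. -/
def GoalMono : Prop := SK.GoalSub → SK.GoalFin → ∀ {V E : Type} [Fintype V] [DecidableEq V]
  [Fintype E] [DecidableEq E] (g : E → V × V) (c : V → Bool) (k : ℤ) (e : E),
  c (g e).1 = true → c (g e).2 = false → ∀ (n : E → ℤ) (i : ℤ),
  SK.cnt g c (SK.wt k n i) ≤ SK.cnt g c (SK.wt k (n + Pi.single e 1) i) ∧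
    SK.cnt g c (SK.wt k n (i - 1)) ≤ SK.cnt g c (SK.wt k (n + Pi.single e 1) i)

/-- PHIRING. Induction on `∑ n`. If all `n e ≤ 1`: `n` is the indicator of `P = {e | n e = 1}`,
PHIAFF (2) and KCNT. Otherwise `n e ≥ 2` for some `e`; put `n' = n - e`, `n' e ≥ 1`. By `Affine` and
`geo (m+1) = (1 + T) geo m - T geo (m-1)`, `T (m+1) = (1 + T) T m - T T (m-1)`, one has
`Φ(n) = (1 + T) Φ(n') - T Φ(n' - e)`, i.e. for the coefficients
`Φ(n)_i = Φ(n')_i + Φ(n')_(i-1) - Φ(n'-e)_(i-1)`; the counts satisfy the same by THREE (the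
ends of `e` are coloured `true`, `false` by `lf_left`, `rt_left`). -/
def GoalPhiRing : Prop :=
  (∀ {E : Type} [Fintype E] [DecidableEq E] (G : BG E), Affine G.Phi ∧
    ∀ P : Finset E, G.Phi (fun e => U (if e ∈ P then 1 else 0)) =
      G.K (fun e => if e ∈ P then 1 else 0)) →
  (∀ {E : Type} [Fintype E] [DecidableEq E] (G : BG E) (n : E → ℤ) (i : ℤ),
    (G.K n).coeff i = SK.cnt G.g G.c (SK.wt 1 n i)) →
  (∀ {V E : Type} [Fintype V] [DecidableEq V]
    [Fintype E] [DecidableEq E] (g : E → V × V) (c : V → Bool) (k : ℤ) (e : E),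
    c (g e).1 = true → c (g e).2 = false → ∀ n : E → ℤ, (∀ e', 0 ≤ n e') → 1 ≤ n e → ∀ i : ℤ,
    SK.cnt g c (SK.wt k (n + Pi.single e 1) i) +
      SK.cnt g c (SK.wt k (n - Pi.single e 1) (i - 1)) =
      SK.cnt g c (SK.wt k n i) + SK.cnt g c (SK.wt k n (i - 1))) →
  ∀ {E : Type} [Fintype E] [DecidableEq E] (G : BG E) (n : E → ℤ), (∀ e, 0 ≤ n e) → ∀ i : ℤ,
    (G.Phi (fun e => U (n e))).coeff i = SK.cnt G.g G.c (SK.wt 1 n i)

/-- COUP. Every nonnegative tangle has a coupling. Write `p a = pre S.L a`, `q b = pre S.R b`; both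
are nondecreasing, `0` for very negative arguments, and by GoalPre (1) `p i - q i = F_i`, so
`q i ≤ p i`, with equality for large `i`: both are then equal to the total mass `M`. Put
`m (a, b) = cl (q b) - cl (q (b-1))` with `cl x = max (p (a-1)) (min (p a) x)`. It is `≥ 0`. For
large `b` `cl (q b) = p a` (as `q b = M ≥ p a`), for very negative `b` it is `p (a-1)`
(`q b = 0 ≤ p (a-1)`), so by telescoping `∑_b m (a,b) = p a - p (a-1) = L_a`. In the same way
`m (a,b) = max 0 (min (p a) (q b) - max (p (a-1)) (q (b-1)))` is symmetric in the two families, so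
`∑_a m (a,b) = q b - q (b-1) = R_b`. If `b < a` then `q b ≤ p b ≤ p (a-1)`, so both terms are
`p (a-1)` and `m (a,b) = 0`. `m (a,b) ≠ 0` only for `a` in the support of `L` and `b` in the support
of `R`. -/
def GoalCoup : Prop := GoalPre → ∀ S : Tg, S.Nonneg → Nonempty (Cpl S)

/-- SLOTNN. Positivity of the slots of an affine kernel whose values at rings of sizes `≥ 0` are
nonnegative and monotone. Fix the channel `k`. Claim for a finite set `s` of channels different
from `k`: if `a l` is nonnegative for `l ∈ s` and a ring `U (n l)`, `n l ≥ 0`, for `l ∉ s`, `l ≠ k`,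
then `slot Φ a k` is nonnegative (it does not depend on `a k`). `s = ∅`: the coefficients of `F`,
`L`, `R` are `Φ(n)_i`, `Φ(n+k)_i - Φ(n)_(i-1)`, `Φ(n+k)_i - Φ(n)_i` (`n k = 0`). Step: let `l ∈ s`
and let `c` be a coupling of `a l` (COUP). For every `b` with `b l = a l`,
`Φ b = b l.R Φ(b, U 0) + b l.F (Φ(b, U 1) - T Φ(b, U 0)) = ((b l).mul (slot Φ b l)).F` up to `rel`
(the two orders of a product have the same `F`: `A.R B.F + A.F B.L = B.R A.F + B.F A.L` by the
two relations), so by COEFMUL and COEFH and `Affine` for rings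
`(Φ b)_i = ∑_c c.m c * (Φ(b, U (c.2 - c.1)))_(i - c.1)`, all `c.2 - c.1 ≥ 0` where `c.m c ≠ 0`. Apply
this to `b = update a k (U 0)` and `b = update a k (U 1)` (`k ≠ l`, `update_comm`): the coefficients
of the slot of `a` are the combinations with the coefficients `c.m c ≥ 0` of the (shifted)
coefficients of the slots of `update a l (U (c.2 - c.1))`, to which the claim for `s \ {l}`
applies. Take `s` = all channels different from `k`. -/
def GoalSlotNN : Prop := GoalCoefH → GoalCoefMul → (∀ S : Tg, S.Nonneg → Nonempty (Cpl S)) →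
  ∀ (J : Type) [Fintype J] [DecidableEq J] (Φ : (J → Tg) → LaurentPolynomial ℝ), Affine Φ →
  (∀ (n : J → ℤ), (∀ e, 0 ≤ n e) → ∀ (k : J) (i : ℤ), 0 ≤ (Φ fun e => U (n e)).coeff i ∧
    (Φ fun e => U (n e)).coeff i ≤ (Φ fun e => U (n e + if e = k then 1 else 0)).coeff i ∧
    (Φ fun e => U (n e)).coeff (i - 1) ≤ (Φ fun e => U (n e + if e = k then 1 else 0)).coeff i) →
  SlotNonneg Φ

/-- PARTI. Assembly. If `E` is not empty both colours occur. SlotNonneg from PHIRING and MONO,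
Pos from `SK.GoalNat`. -/
def GoalPartI : Prop :=
  (∀ (V E : Type) [Fintype V] [DecidableEq V] [Fintype E] [DecidableEq E] (g : E → V × V)
    (c : V → Bool), Function.Surjective c → (∀ e, c (g e).1 ≠ c (g e).2) →
    ∀ (Φ : (E → Tg) → LaurentPolynomial ℝ), Affine Φ → ∀ k : ℤ,
    (∀ n : E → ℤ, (∀ e, 0 ≤ n e) → ∀ i : ℤ,
      (Φ (fun e => U (n e))).coeff i = SK.cnt g c (SK.wt k n i)) →
    Pos Φ (fun _ => True) (fun _ => U 0)) →
  (∀ {E : Type} [Fintype E] [DecidableEq E] (G : BG E), Affine G.Phi ∧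
    ∀ P : Finset E, G.Phi (fun e => U (if e ∈ P then 1 else 0)) =
      G.K (fun e => if e ∈ P then 1 else 0)) →
  (∀ {E : Type} [Fintype E] [DecidableEq E] (G : BG E) (n : E → ℤ), (∀ e, 0 ≤ n e) → ∀ i : ℤ,
    (G.Phi (fun e => U (n e))).coeff i = SK.cnt G.g G.c (SK.wt 1 n i)) →
  (∀ {V E : Type} [Fintype V] [DecidableEq V]
    [Fintype E] [DecidableEq E] (g : E → V × V) (c : V → Bool) (k : ℤ) (e : E),
    c (g e).1 = true → c (g e).2 = false → ∀ (n : E → ℤ) (i : ℤ),
    SK.cnt g c (SK.wt k n i) ≤ SK.cnt g c (SK.wt k (n + Pi.single e 1) i) ∧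
      SK.cnt g c (SK.wt k n (i - 1)) ≤ SK.cnt g c (SK.wt k (n + Pi.single e 1) i)) →
  (∀ (J : Type) [Fintype J] [DecidableEq J] (Φ : (J → Tg) → LaurentPolynomial ℝ), Affine Φ →
    (∀ (n : J → ℤ), (∀ e, 0 ≤ n e) → ∀ (k : J) (i : ℤ), 0 ≤ (Φ fun e => U (n e)).coeff i ∧
      (Φ fun e => U (n e)).coeff i ≤ (Φ fun e => U (n e + if e = k then 1 else 0)).coeff i ∧
      (Φ fun e => U (n e)).coeff (i - 1) ≤ (Φ fun e => U (n e + if e = k then 1 else 0)).coeff i) →
    SlotNonneg Φ) →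
  ∀ {E : Type} [Fintype E] [DecidableEq E] [Nonempty E] (G : BG E),
    Affine G.Phi ∧ SlotNonneg G.Phi ∧ Pos G.Phi (fun _ => True) (fun _ => U 0)

end Pool.Agent.Helper99.PG
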