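import Pool.Agent.Helper99.PG.Goals
import Pool.Agent.Helper37.Arb.Planar

/-!
PROJECT C2, target (a): the regions of `fill`, and supports without gaps. Complete proofs in
words are in the docstrings.
-/

namespace Pool.Agent.Helper99.PG

open Pool.Agent.Helper36.SC Pool.Agent.Helper37.Arb Pool.Agent.Helper52.C2
open scoped Classical

/-! ### Regions of a skeleton without the crossing `none` -/

/-- same side of an edge, for corners not at `none` -/
def Skel.sm {V : Type} (S : Skel V) (c c' : V × Corner) : Prop :=
  S.D.SameSide (some c.1, c.2) (some c'.1, c'.2)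

/-- FEXT. Let `α = S.D.underNext`, `β = S.D.overNext`. As all crossings are positive, `SameSide` is
`(v,left) ~ (αv,left)`, `(v,right) ~ (βv,right)`, `(v,front) ~ (αv,back)`, `(v,front) ~ (βv,back)`.
`α none`, `β none` are not `none` (`α (some l) = none`, `β (some r) = none`), put
`some wl = α none`, `some wr = β none`. Extend `f` to `f̂` on the corners of `Option V` by
`(none,left) ↦ f (wl,left)`, `(none,right) ↦ f (wr,right)`, `(none,front) ↦ f (wl,back)`,
`(none,back) ↦ f (l,front)`. Then `f̂` is invariant under `SameSide` (so it is constant on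
regions, which is the claim), by the hypothesis and the following four equations.
(1) `f (l,left) = f (wl,left)`: let `S₁` be the set of the `some v` with `f (v,left) = f (wl,left)`.
If `some l ∉ S₁` then `α` maps `S₁` into `S₁` (`α v ≠ none` for `v ≠ l`), so `α '' S₁ = S₁` (finite),
`some wl ∈ S₁`, so `none = α⁻¹ (some wl) ∈ S₁`, contradiction.
(2) `f (r,right) = f (wr,right)`: in the same way with `β`.
(3) `f (wl,back) = f (wr,back)`: `γ = β ∘ α⁻¹`, `S₃` the set of the `some v` with
`region (some v, back) = region (none, front)` and `f (v,back) = f (wr,back)`. If `some wl ∉ S₃` then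
`γ` maps `S₃` into `S₃`: for `u = some v ∈ S₃` we have `α⁻¹ u = some v₁` (`u ≠ some wl`), and
`region (γ u, back) = region (some v₁, front) = region (u, back) = region (none, front)` is not
`region (none, back)` by `cut`, so `γ u = some v₂`, and `f (v₂,back) = f (v₁,front) = f (v,back)`.
So `γ '' S₃ = S₃`; `some wr ∈ S₃` (`(none,front) ~ (wr,back)`), `γ (some wl) = some wr`, so
`some wl ∈ S₃`, contradiction.
(4) `f (r,front) = f (l,front)`: `δ = β⁻¹ ∘ α`, `S₄` the set of the `some v` with
`region (some v, front) = region (none, back)` and `f (v,front) = f (r,front)`. If `some l ∉ S₄`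
then `δ` maps `S₄` into `S₄` (as before: `α u = some v₁`, `δ u` has
`region (δ u, front) = region (some v₁, back) = region (u, front) = region (none, back)`, which is
not `region (none, front)`); `some r ∈ S₄` (`(r,front) ~ (none,back)`), `δ (some l) = some r`, so
`some l ∈ S₄`. -/
def GoalFExt : Prop := ∀ {V : Type} [Fintype V] (S : Skel V) (A : Type) (f : V × Corner → A),
  (∀ c c', S.sm c c' → f c = f c') → ∀ (v v' : V) (X X' : Corner),
  S.D.region (some v, X) = S.D.region (some v', X') → f (v, X) = f (v', X')

/-- FCONN. (1) Apply FEXT to `(v, X) ↦ f v`. `(l,left) ~ (none,left) ~ (wl,left)` gives `f l = f wl`,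
`right` gives `f r = f wr`, `(wl,back) ~ (none,front) ~ (wr,back)` gives `f wl = f wr`. So `f`
extended by `none ↦ f l` is invariant under `underNext` and `overNext`, hence constant by
`Connected`. (2) `left ↦ 0`, `right ↦ 1`, `front, back ↦ 2` is invariant under `SameSide`. -/
def GoalFConn : Prop := GoalFExt → ∀ {V : Type} [Fintype V] (S : Skel V),
  (∀ (A : Type) (f : V → A), (∀ c c', S.sm c c' → f c.1 = f c'.1) → ∀ v v', f v = f v') ∧
  ∀ o o' : Option V, S.D.region (o, .left) ≠ S.D.region (o', .right) ∧
    S.D.region (o, .left) ≠ S.D.region (o', .front) ∧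
    S.D.region (o, .left) ≠ S.D.region (o', .back) ∧
    S.D.region (o, .right) ≠ S.D.region (o', .front) ∧
    S.D.region (o, .right) ≠ S.D.region (o', .back)

/-! ### Regions of `fill` -/

/-- corners of the tangle `v` as corners of the composite -/
def inc {V : Type} {B : V → Type} (v : V) (c : B v × Corner) : (Σ v, B v) × Corner :=
  (⟨v, c.1⟩, c.2)

/-- FEDGE. The edges of the open composite: edges of the open tangles `M v`, and for every edge of
`S.D` not at `none` the edge from the mark of `v` to the end of the mark of `w`. Unfold `fill`,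
`moveSigma` (`mv_mark`, `mv_ne`), `Equiv.removeNone_some`; `pos` of `fill` at `⟨v, p⟩` is `pos` of
`M v` at `p`, so `uL`, ... of `fill` are `inc v` of `uL`, ... of `M v` by `rfl`. -/
def GoalFEdge : Prop := ∀ {V : Type} [Fintype V] [DecidableEq V] (S : Skel V) (M : V → Marked)
  (x y : (Σ v, (M v).V) × Corner),
  Opn true (fill S.D S.l S.r M).D (fill S.D S.l S.r M).l (fill S.D S.l S.r M).r x y ↔
    (∃ v c c', Opn true (M v).D (M v).l (M v).r c c' ∧ x = inc v c ∧ y = inc v c') ∨
    (∃ v w, S.D.underNext (some v) = some w ∧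
      ((x = inc v (uL (M v).D (M v).l) ∧ y = inc w (jL (M w).D ((M w).D.underNext (M w).l))) ∨
      (x = inc v (uR (M v).D (M v).l) ∧ y = inc w (jR (M w).D ((M w).D.underNext (M w).l))))) ∨
    (∃ v w, S.D.overNext (some v) = some w ∧
      ((x = inc v (oL (M v).D (M v).r) ∧ y = inc w (iL (M w).D ((M w).D.overNext (M w).r))) ∨
      (x = inc v (oR (M v).D (M v).r) ∧ y = inc w (iR (M w).D ((M w).D.overNext (M w).r)))))

section lab

variable {V : Type} (S : Skel V) (M : V → Marked) (F : V → Type)
  (G : ∀ v, Faces true (M v).D (M v).l (M v).r (F v))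

/-- regions of the open composite -/
abbrev FF : Type := S.D.Region ⊕
  Σ v, {x : F v // x ≠ (G v).N ∧ x ≠ (G v).S ∧ x ≠ (G v).W ∧ x ≠ (G v).E}

/-- the region of the composite that contains the region `x` of `M v` -/
noncomputable def lab (v : V) (x : F v) : FF S M F G :=
  if h : x ≠ (G v).N ∧ x ≠ (G v).S ∧ x ≠ (G v).W ∧ x ≠ (G v).E then .inr ⟨v, x, h⟩
  else if x = (G v).N then .inl (S.D.region (some v, .front))
  else if x = (G v).S then .inl (S.D.region (some v, .back))
  else if x = (G v).W then .inl (S.D.region (some v, .left))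
  else .inl (S.D.region (some v, .right))

end lab

/-- FLAB. Sound: by FEDGE; inner edges by `Faces.sound`; for `underNext (some v) = some w`: `uL` at
the mark is `W_v` (`l1`), `jL` is `W_w` (`l2`), and `(v,left) ~ (w,left)`; `uR` is `N_v` (`l3`), `jR` is
`S_w` (`l4`), `(v,front) ~ (w,back)`; for `overNext`: `oL` is `N_v` (`t1`), `iL` is `S_w` (`t2`),
`(v,front) ~ (w,back)`; `oR` is `E_v` (`t3`), `iR` is `E_w` (`t4`), `(v,right) ~ (w,right)`.
Complete: if the label is in the second summand then `v = v'` and the `ρ` are equal: `conn.1` of `G v`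
and inner edges. Otherwise: for `(v, X)` let `f (v, X)` be the class modulo
`EqvGen (Opn true fill ..)` of `inc v c` for any `c` with `(G v).ρ c = X_v` (`N` for `front`, `S` for
`back`, `W` for `left`, `E` for `right`; `surj`; well defined by `conn.1`). It is invariant under
`S.sm`: the edges of FEDGE with the labels just listed. So by FEXT it only depends on the region of
`(some v, X)`. -/
def GoalFLab : Prop := GoalFExt → GoalFEdge → ∀ {V : Type} [Fintype V] [DecidableEq V]
  (S : Skel V) (M : V → Marked) (F : V → Type)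
  (G : ∀ v, Faces true (M v).D (M v).l (M v).r (F v)) (v v' : V) (c : (M v).V × Corner)
  (c' : (M v').V × Corner),
  (Opn true (fill S.D S.l S.r M).D (fill S.D S.l S.r M).l (fill S.D S.l S.r M).r (inc v c)
      (inc v' c') → lab S M F G v ((G v).ρ c) = lab S M F G v' ((G v').ρ c')) ∧
  (lab S M F G v ((G v).ρ c) = lab S M F G v' ((G v').ρ c') →
    Relation.EqvGen (Opn true (fill S.D S.l S.r M).D (fill S.D S.l S.r M).l
      (fill S.D S.l S.r M).r) (inc v c) (inc v' c'))

/-- FFILL (assembly). `F = FF S M F G`, `ρ (⟨v, p⟩, X) = lab v ((G v).ρ (p, X))`,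
`N = inl region (none, back)`, `S = inl region (none, front)`, `W = inl region (none, left)`,
`E = inl region (none, right)`; distinct by `cut` and FCONN (2). `card`: `|D.Region| = |V| + 1 + 2`
(`planar`), and `|F v| = |V_v| + 3`, four elements (distinct) are removed for every `v`:
`|V| + 3 + ∑ (|V_v| - 1) = ∑ |V_v| + 3` (`Nat.card_sigma`; every `V_v` is not empty, it contains the
mark). `surj`: a region of `D` at `some v` is `lab v` of `N, S, W` or `E`; at `none` use
`(none,left) ~ (wl,left)`, `(none,right) ~ (wr,right)`, `(none,front) ~ (wl,back)`,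
`(none,back) ~ (l,front)` (`wl`, `wr` as in FEXT). `sound`, `conn.1`: FLAB. `conn.2`: inside `M v` by
`conn.2` of `G v`; the class of a crossing of `M v` modulo the relation is then a function of `v`
which is invariant under `S.sm` by FEDGE, so FCONN (1). `l1`..`l4`, `t1`..`t4`: the mark `l` of `fill`
is `⟨l, l_l⟩` and `underNext` of it is `⟨wl, underNext l_wl⟩` (`removeNone underNext l = wl` as
`underNext (some l) = none`); `ρ (uL ..) = lab l W_l = region (l,left) = region (none,left)`;
`jL`: `lab wl W = region (wl,left) = region (none,left)`; `uR`: `lab l N_l = region (l,front) =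
region (none,back)`; `jR`: `lab wl S = region (wl,back) = region (none,front)`; `oL` at
`⟨r, r_r⟩`: `region (r,front) = region (none,back)`; `iL`: `region (wr,back) = region (none,front)`;
`oR`: `region (r,right) = region (none,right)`; `iR`: `region (wr,right)`. -/
def GoalFFill : Prop := GoalFExt → GoalFEdge →
  (∀ {V : Type} [Fintype V] (S : Skel V),
    (∀ (A : Type) (f : V → A), (∀ c c', S.sm c c' → f c.1 = f c'.1) → ∀ v v', f v = f v') ∧
    ∀ o o' : Option V, S.D.region (o, .left) ≠ S.D.region (o', .right) ∧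
      S.D.region (o, .left) ≠ S.D.region (o', .front) ∧
      S.D.region (o, .left) ≠ S.D.region (o', .back) ∧
      S.D.region (o, .right) ≠ S.D.region (o', .front) ∧
      S.D.region (o, .right) ≠ S.D.region (o', .back)) →
  (∀ {V : Type} [Fintype V] [DecidableEq V]
    (S : Skel V) (M : V → Marked) (F : V → Type)
    (G : ∀ v, Faces true (M v).D (M v).l (M v).r (F v)) (v v' : V) (c : (M v).V × Corner)
    (c' : (M v').V × Corner),
    (Opn true (fill S.D S.l S.r M).D (fill S.D S.l S.r M).l (fill S.D S.l S.r M).r (inc v c)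
      (inc v' c') → lab S M F G v ((G v).ρ c) = lab S M F G v' ((G v').ρ c')) ∧
    (lab S M F G v ((G v).ρ c) = lab S M F G v' ((G v').ρ c') →
      Relation.EqvGen (Opn true (fill S.D S.l S.r M).D (fill S.D S.l S.r M).l
        (fill S.D S.l S.r M).r) (inc v c) (inc v' c'))) →
  ∀ {V : Type} [Fintype V] [DecidableEq V] (S : Skel V) (M : V → Marked),
    (∀ v, ∃ F : Type, Nonempty (Faces true (M v).D (M v).l (M v).r F)) →
    ∃ F : Type, Nonempty (Faces true (fill S.D S.l S.r M).D (fill S.D S.l S.r M).l
      (fill S.D S.l S.r M).r F)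

/-! ### Supports -/

/-- NOGAP. (1) `pre L` is log-concave: `(pre L (i+1)) (pre L (i-1)) ≤ (pre L i)^2`. Window with `n` so
large that `pre R (i + 1 - n) = 0`, base `i - 1`, OP-TWO (`h n j = pre L j - pre R (j - n)`).
(2) If `F_i = 0` and `F_(i+1) > 0` then `h 1 i = F_(i-1) + L_i` (GoalPre) is `0`: in the window
`n = 1` with the base `i` put `a = XX`, `b = XY`, `c = YY = h 1 i ≥ 0`, `p = XV = h 0 (i+1) = F_(i+1)`,
`YV = h 0 i = F_i = 0`, `v = VV ≥ 0`. Suppose `c > 0`. For small `ε > 0` the vector
`w = (ε, - b ε / c, 1)` has `quad w = ε^2 (a - b^2/c) + 2 p ε + v > 0`, and it is orthogonal to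
`e_Y = (0,1,0)`, so `quad (s e_Y + t w) = s^2 c + t^2 quad w > 0` for `(s,t) ≠ 0`; some such vector
is in the kernel of `l`, contradiction to OnePos.
(3) Suppose `F_a ≠ 0`, `F_b = 0`, `F_d ≠ 0`, `a < b < d`. Let `i < d` be the largest index with
`F_i = 0`; `i ≥ b`, `F_(i+1) > 0`. By (2) `L_i = 0` (both terms are `≥ 0`). `L_(i+1) ≥ L_(i+1) -
R_(i+1) = F_(i+1) - F_i > 0`. `c = pre L i = pre L (i-1) ≥ pre L a ≥ F_a > 0`, and
`pre L (i+1) = c + L_(i+1)`: contradiction to (1).
The second part: `bes A B (U 1)` has `F = B * geo 1 = B`. -/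
def GoalNoGap : Prop := GoalPre → GoalOpTwo → GoalCross →
  (∀ S : Tg, S.HH1 → ∀ i j k, i < j → j < k → S.F.coeff i ≠ 0 → S.F.coeff k ≠ 0 →
    S.F.coeff j ≠ 0) ∧
  (∀ A B : LaurentPolynomial ℝ, GoodPair A B → ∀ i j k, i < j → j < k → B.coeff i ≠ 0 →
    B.coeff k ≠ 0 → B.coeff j ≠ 0)

end Pool.Agent.Helper99.PG
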