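import Pool.Agent.Helper99.PG.Goals1
import Pool.Agent.Helper86.PG.POT
import Pool.Agent.Helper14.PG.HYP
import Pool.Agent.Helper36.PG.SLACK
import Pool.Agent.Helper16.PG.TIN
import Pool.Agent.Helper93.PG.HALL
import Pool.Agent.Helper59.PG.CYC
import Pool.Agent.Helper77.PG.CPOT
import Pool.Agent.Helper64.PG.C1
import Pool.Agent.Helper89.PG.C2
import Pool.Agent.Helper85.PG.SC
import Pool.Agent.Helper83.PG.SURJ
import Pool.Agent.Helper84.PG.MT
import Pool.Agent.Helper24.PG.EVAL
import Pool.Agent.Helper95.PG.PHI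
import Pool.Agent.Helper81.PG.PR
import Pool.Agent.Helper37.PG.PP
import Pool.Agent.Helper50.PG.MF
import Pool.Agent.Helper49.PG.EV
import Pool.Agent.Helper46.PG.SA
import Pool.Agent.Helper54.PG.FILL
import Pool.Agent.Helper86.PG.PA
import Pool.Agent.Helper90.PG.KC
import Pool.Agent.Helper24.PG.MO
import Pool.Agent.Helper77.PG.RG
import Pool.Agent.Helper82.PG.SN
import Pool.Agent.Helper36.PG.P1
import Pool.Agent.Helper68.SK.All
import Pool.Agent.Helper83.PG.TINJ
import Pool.Agent.Helper1.PG.TREE
import Pool.Agent.Helper70.PG.Three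
import Pool.Agent.Helper55.PG.CD
import Pool.Agent.Helper25.PG.CR
import Pool.Agent.Helper99.PG.CO

/-! PROJECT C2, target (a): assembly of the parts I, II, III. -/

namespace Pool.Agent.Helper99.PG

open Pool.Agent Pool.Agent.Helper36.SC Pool.Agent.Helper37.Arb Pool.Agent.Helper52.C2
open scoped Classical

/-- the choice functions with the tree property are the lattice points -/
theorem bijOn {V : Type} [Fintype V] [DecidableEq V] (H : Hyp V)
    (G : BG (Option V)) (hG : IsCirc H.α H.β G) (κ : Bool) (W : Finset V) :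
    Set.BijOn (jof G κ W) (H.trees κ W) (G.J (sz κ W)) :=
  ⟨fun A hA => Helper16.PG.treeIn Helper36.PG.slack H G hG κ W A hA,
    fun A hA A' hA' h => Helper83.PG.treeInj H G hG κ W A hA A' hA' h,
    fun j hj => Helper83.PG.treeSurj Helper36.PG.slack Helper93.PG.hall
      (Helper77.PG.cycPot) Helper64.PG.case1 Helper89.PG.case2 Helper85.PG.sameCount
      Helper59.PG.cycle H G hG κ W j hj⟩

/-- the polynomials of the lattice points are the tree polynomials -/
theorem kTree {V : Type} [Fintype V] [DecidableEq V]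
    (H : Hyp V) (G : BG (Option V)) (hG : IsCirc H.α H.β G) (κ : Bool) (W : Finset V) :
    G.K (sz κ W) = ∑ A ∈ H.trees κ W, LaurentPolynomial.T (cnt W A) :=
  Helper1.PG.tree Helper36.PG.deg bijOn H G hG κ W

/-- the kernel is the port determinant -/
theorem phiPort {V : Type} [Fintype V] [DecidableEq V]
    (H : Hyp V) (G : BG (Option V)) (hG : IsCirc H.α H.β G) (a : Option V → Tg) :
    G.Phi a = (a none).R * H.GP false (fun v => a (some v)) +
      (a none).F * (H.GP true (fun v => a (some v)) -
        LaurentPolynomial.T 1 * H.GP false (fun v => a (some v))) :=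
  Helper95.PG.phi (Helper24.PG.eval Helper84.PG.mTree) kTree H G hG a

/-- part I -/
theorem partI {E : Type} [Fintype E] [DecidableEq E] [Nonempty E]
    (G : BG E) : Affine G.Phi ∧ SlotNonneg G.Phi ∧ Pos G.Phi (fun _ => True) (fun _ => U 0) :=
  Helper36.PG.partI
    (fun _ _ _ _ _ _ g c hc hg Φ hΦ k h => Helper68.SK.posOfCnt g c hc hg Φ hΦ k h)
    Helper86.PG.phiAff
    (Helper77.PG.phiRing Helper86.PG.phiAff (Helper90.PG.kCnt Helper37.SK.goalFin)
      (Helper70.PG.three Helper93.SK.sub Helper37.SK.goalFin))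
    (Helper24.PG.mono Helper93.SK.sub Helper37.SK.goalFin)
    (Helper82.PG.slotNN Helper33.C2.goalCoefH Helper33.C2.goalCoefMul (coup' Helper33.C2.goalPre)) G

/-- substitution of tangles -/
theorem subst' : GoalSubst :=
  Helper52.C2.subst (Helper52.C2.mt1' (Helper60.LZ.r4 Helper67.LZ.kap))

/-- the slot at `none` -/
theorem slotHH {V : Type} [Fintype V] [DecidableEq V]
    (G : BG (Option V)) (a : Option V → Tg) (ha : ∀ v, (a (some v)).HH1) :
    (slot G.Phi a none).HH1 := by
  obtain ⟨h1, h2, h3⟩ := partI G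
  refine Helper46.PG.substAll subst' Helper81.C2.pos1 Helper33.C2.goalCoefH Helper24.C2.opMap
    Helper58.C2.goalNonneg (Option V) G.Phi h1 h2 h3 none a ?_
  rintro (_ | v) hv
  · exact absurd rfl hv
  · exact ha v

/-- MAIN THEOREM of the parts I, II, III: tangles may be substituted into special alternating
diagrams. -/
theorem fillMain {V : Type} [Fintype V] [DecidableEq V]
    (S : Skel V) (M : V → Marked) (s : V → Tg) (hs : ∀ v, ParOK (M v) (s v)) :
    ∃ Q, ParOK (fill S.D S.l S.r M) Q := by
  obtain ⟨H, hα, hβ⟩ := Helper14.PG.hyp Helper86.PG.pot Helper14.PG.conn S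
  obtain ⟨G, hG⟩ := Helper14.PG.circ H.α H.β
  exact Helper54.PG.fillOK Helper49.PG.evHom Helper50.PG.matFill Helper55.PG.compDet Helper25.PG.compResp Helper81.PG.portResp
    (Helper37.PG.portPos Helper84.PG.mTree) Helper49.PG.indexFill S H G hα hβ
    (phiPort H G hG) (slotHH G) M s hs

end Pool.Agent.Helper99.PG
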