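import Pool.Agent.Helper99.PG.GoalsF
import Pool.Agent.Helper23.PG.FX
import Pool.Agent.Helper28.PG.FC
import Pool.Agent.Helper79.PG.FE
import Pool.Agent.Helper62.PG.FL
import Pool.Agent.Helper16.PG.FF

/-! PROJECT C2, target (a): regions of `fill`, assembly. -/

namespace Pool.Agent.Helper99.PG

open Pool.Agent Pool.Agent.Helper37.Arb

/-- the regions of `fill` -/
theorem facesFill {V : Type} [Fintype V] [DecidableEq V] (S : Skel V) (M : V → Marked)
    (h : ∀ v, ∃ F : Type, Nonempty (Faces true (M v).D (M v).l (M v).r F)) :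
    ∃ F : Type, Nonempty (Faces true (fill S.D S.l S.r M).D (fill S.D S.l S.r M).l
      (fill S.D S.l S.r M).r F) :=
  Helper16.PG.fFill Helper23.PG.fExt Helper79.PG.fEdge (Helper28.PG.fConn Helper23.PG.fExt)
    (Helper62.PG.fLab Helper23.PG.fExt Helper79.PG.fEdge) S M h

end Pool.Agent.Helper99.PG
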